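import Pool.Agent.OrdThm.OS
import Pool.Agent.MDP.LkSucc
import Pool.Agent.MDP.ThmA
import Pool.Agent.MDP.Basic

/-! Cores from attached sets (both directions), by the theorem of Hall. -/

open Classical

namespace Pool.Agent.OSX82

open Pool.Agent.MDP (Col Core Lk lk_of_succ thmA)
open Pool.Agent.OrdThm (nb mem_nb LCol)
open Pool.Agent.Mader (Acyc)

universe u

variable {V : Type u}

/-- The reversed digraph. -/
abbrev rev (a : V → V → Prop) : V → V → Prop := fun x y => a y x

theorem acyc_rev {a : V → V → Prop} {X : Finset V} (h : Acyc a X) : Acyc (rev a) X := by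
  have key : ∀ n : ℕ, ∀ Z : Finset V, Z.card = n → Z ⊆ X → Z.Nonempty →
      ∃ u ∈ Z, ∀ v ∈ Z, ¬ a v u := by
    intro n
    induction n with
    | zero =>
      intro Z hZ _ hne
      rw [Finset.card_eq_zero] at hZ
      exact absurd hZ hne.ne_empty
    | succ n ih =>
      intro Z hZ hZX hne
      obtain ⟨u, hu, hu'⟩ := h Z hZX hne
      rcases (Z.erase u).eq_empty_or_nonempty with he | he
      · refine ⟨u, hu, fun v hv => ?_⟩
        have hvu : v = u := by
          by_contra hvu
          have : v ∈ Z.erase u := Finset.mem_erase.2 ⟨hvu, hv⟩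
          rw [he] at this
          exact absurd this (Finset.notMem_empty v)
        rw [hvu]
        exact hu' u hu
      · obtain ⟨w, hw, hw'⟩ := ih (Z.erase u) (by rw [Finset.card_erase_of_mem hu, hZ]; rfl)
          ((Finset.erase_subset _ _).trans hZX) he
        refine ⟨w, Finset.mem_of_mem_erase hw, fun v hv => ?_⟩
        by_cases hvu : v = u
        · rw [hvu]
          exact hu' w (Finset.mem_of_mem_erase hw)
        · exact hw' v (Finset.mem_erase.2 ⟨hvu, hv⟩)
  intro Z hZ hne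
  exact key _ Z rfl hZ hne

theorem lcol_rev {a : V → V → Prop} {m : ℕ} {X : Finset V} {p : ℕ} (h : LCol a m X p) :
    LCol (rev a) m X p := by
  intro P F hP hF
  obtain ⟨c, h1, h2⟩ := h P F hP hF
  exact ⟨c, h1, fun i => acyc_rev (h2 i)⟩

theorem col_of_lcol {a : V → V → Prop} {X : Finset V} {p : ℕ} (h : LCol a 0 X p) :
    Col a X p := by
  obtain ⟨c, h1, h2⟩ := h (Finset.range p) (fun _ => ∅) (by simp) (by simp)
  exact ⟨c, fun v hv => Finset.mem_range.1 (h1 v hv).1, h2⟩

/-- The product: from ordinary colourings to colourings with forbidden colours. -/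
theorem lcol_of_col {a : V → V → Prop} {X : Finset V} {k : ℕ} (m : ℕ) (h : Col a X k) :
    LCol a m X (k * (m + 1)) := by
  obtain ⟨c, h1, h2⟩ := h
  intro P F hP hF
  obtain ⟨P', hP', hcard⟩ := Finset.exists_subset_card_eq hP
  let e : Fin (k * (m + 1)) ≃ P' := (P'.equivFinOfCardEq hcard).symm
  have hlt : ∀ i < k, ∀ j < m + 1, i * (m + 1) + j < k * (m + 1) := by
    intro i hi j hj
    have h3 : (i + 1) * (m + 1) ≤ k * (m + 1) := Nat.mul_le_mul_right _ hi
    rw [add_mul, one_mul] at h3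
    omega
  have hex : ∀ v, ∃ q : ℕ, v ∈ X → (∃ (j : ℕ) (hj : j < m + 1) (hi : c v < k),
      q = (e ⟨c v * (m + 1) + j, hlt _ hi _ hj⟩ : ℕ)) ∧ q ∉ F v := by
    intro v
    by_cases hv : v ∈ X
    · have hi := h1 v hv
      let g : Fin (m + 1) → ℕ := fun j => (e ⟨c v * (m + 1) + j, hlt _ hi _ j.2⟩ : ℕ)
      have hg : Function.Injective g := by
        intro j j' hjj
        have h3 := e.injective (Subtype.ext hjj)
        rw [Fin.mk.injEq] at h3
        exact Fin.ext (by omega)
      have hc : (F v).card < (Finset.univ.image g).card := by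
        rw [Finset.card_image_of_injective _ hg, Finset.card_univ, Fintype.card_fin]
        have := hF v hv
        omega
      obtain ⟨q, hq, hq'⟩ := Finset.exists_mem_notMem_of_card_lt_card hc
      obtain ⟨j, _, hj⟩ := Finset.mem_image.1 hq
      exact ⟨q, fun _ => ⟨⟨j, j.2, hi, hj.symm⟩, hq'⟩⟩
    · exact ⟨0, fun h => absurd h hv⟩
  choose q hq using hex
  refine ⟨q, fun v hv => ⟨?_, (hq v hv).2⟩, fun i Z hZ hne => ?_⟩
  · obtain ⟨j, hj, hi, he⟩ := (hq v hv).1
    rw [he]
    exact hP' (e _).2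
  · obtain ⟨z, hz⟩ := hne
    have hz' := Finset.mem_filter.1 (hZ hz)
    refine h2 (c z) Z ?_ ⟨z, hz⟩
    intro v hv
    have hv' := Finset.mem_filter.1 (hZ hv)
    rw [Finset.mem_filter]
    refine ⟨hv'.1, ?_⟩
    obtain ⟨j, hj, hi, he⟩ := (hq v hv'.1).1
    obtain ⟨j', hj', hi', he'⟩ := (hq z hz'.1).1
    have h3 : (e ⟨c v * (m + 1) + j, hlt _ hi _ hj⟩ : ℕ) =
        (e ⟨c z * (m + 1) + j', hlt _ hi' _ hj'⟩ : ℕ) := by
      rw [← he, ← he', hv'.2, hz'.2]
    have h4 := e.injective (Subtype.ext h3)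
    rw [Fin.mk.injEq] at h4
    rcases lt_trichotomy (c v) (c z) with h5 | h5 | h5
    · exfalso
      have h6 : (c v + 1) * (m + 1) ≤ c z * (m + 1) := Nat.mul_le_mul_right _ h5
      rw [add_mul, one_mul] at h6
      omega
    · exact h5
    · exfalso
      have h6 : (c z + 1) * (m + 1) ≤ c v * (m + 1) := Nat.mul_le_mul_right _ h5
      rw [add_mul, one_mul] at h6
      omega

/-- Attached by walks. -/
theorem att_of_walk {a : V → V → Prop} {S W Z : Finset V} {P c : ℕ} (hPc : P ≤ c + 1)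
    (hW : W ⊆ S) (hZW : Z ⊆ W) (hZ : P ≤ Z.card)
    (h : ∀ C : Finset V, C.card ≤ c → ∀ u ∈ W, u ∉ C → ∀ v ∈ W, v ∉ C →
      Relation.ReflTransGen (fun x y => a x y ∧ y ∈ S ∧ y ∉ C) u v)
    {v : V} (hv : v ∈ W) : OrdThm.Att a Z P (S \ Z) v := by
  intro R hR hvR
  by_contra hlt
  push Not at hlt
  set C := nb a (S \ Z ∪ Z) R with hC
  have hZS : Z ⊆ S := hZW.trans hW
  have hvC : v ∉ C := fun h1 => (mem_nb.1 h1).2.1 hvR
  obtain ⟨z, hz, hzC⟩ := Finset.exists_mem_notMem_of_card_lt_card (hlt.trans_le hZ)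
  have hwalk := h C (by omega) v hv hvC z (hZW hz) hzC
  have hin : ∀ x, Relation.ReflTransGen (fun x y => a x y ∧ y ∈ S ∧ y ∉ C) v x → x ∈ R := by
    intro x hx
    induction hx with
    | refl => exact hvR
    | tail _ hs ih =>
      obtain ⟨h1, h2, h3⟩ := hs
      by_contra hc
      apply h3
      rw [hC, mem_nb]
      refine ⟨?_, hc, _, ih, h1⟩
      rw [Finset.sdiff_union_of_subset hZS]
      exact h2
  exact (Finset.mem_sdiff.1 (hR (hin z hwalk))).2 hz

theorem att_of_walk_rev {a : V → V → Prop} {S W Z : Finset V} {P c : ℕ} (hPc : P ≤ c + 1)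
    (hW : W ⊆ S) (hZW : Z ⊆ W) (hZ : P ≤ Z.card)
    (h : ∀ C : Finset V, C.card ≤ c → ∀ u ∈ W, u ∉ C → ∀ v ∈ W, v ∉ C →
      Relation.ReflTransGen (fun x y => a x y ∧ y ∈ S ∧ y ∉ C) u v)
    {v : V} (hv : v ∈ W) : OrdThm.Att (rev a) Z P (S \ Z) v := by
  intro R hR hvR
  by_contra hlt
  push Not at hlt
  set C := nb (rev a) (S \ Z ∪ Z) R with hC
  have hZS : Z ⊆ S := hZW.trans hW
  have hvC : v ∉ C := fun h1 => (mem_nb.1 h1).2.1 hvR
  obtain ⟨z, hz, hzC⟩ := Finset.exists_mem_notMem_of_card_lt_card (hlt.trans_le hZ)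
  have hwalk := h C (by omega) z (hZW hz) hzC v hv hvC
  have hzR : z ∉ R := fun h1 => (Finset.mem_sdiff.1 (hR h1)).2 hz
  have hout : ∀ x, Relation.ReflTransGen (fun x y => a x y ∧ y ∈ S ∧ y ∉ C) z x →
      x ∉ R ∧ x ∈ S ∧ x ∉ C := by
    intro x hx
    induction hx with
    | refl => exact ⟨hzR, hZS hz, hzC⟩
    | tail _ hs ih =>
      obtain ⟨h1, h2, h3⟩ := hs
      refine ⟨fun hc => ih.2.2 ?_, h2, h3⟩
      rw [hC, mem_nb]
      refine ⟨?_, ih.1, _, hc, h1⟩
      rw [Finset.sdiff_union_of_subset hZS]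
      exact ih.2.1
  exact (hout v hwalk).1 hvR

/-- If every vertex of `Y` is attached to and from `Z` outside `Y`, with order `2 * N = |Z|`,
then `Y` is a core.

Proof. Hall's theorem for the rows `R ⊕ Fin N` (`R = S \ Y`, and the sources) and the columns
`R ⊕ Fin N` (and the targets), then `lk_of_succ`. Let `A` be a set of rows with fewer than
`|A|` columns, `A1` its part in `R`, `B1` the columns in `R`; `A1 ⊆ B1` since a vertex of `R` may
be idle. With `C = B1 \ A1` and the set `T` of the targets which occur,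
`|C| + |T| < |sources in A| ≤ N`. The attachment of a source in `A` gives
`2 * N ≤ |C| + |A1 ∩ Z|`, that of a target not in `T` gives `2 * N ≤ |C| + |Z \ B1|`. The sum is
`≤ 2 * |C| + |Z| ≤ 2 * (N - 1) + 2 * N`. -/
theorem core_of_att {a : V → V → Prop} {S Y Z : Finset V} {N : ℕ} (hYS : Y ⊆ S) (hZS : Z ⊆ S)
    (hYZ : Disjoint Y Z) (hZ : Z.card = 2 * N)
    (hout : ∀ w ∈ Y, OrdThm.Att a Z (2 * N) (insert w ((S \ Z) \ Y)) w)
    (hin : ∀ w ∈ Y, OrdThm.Att (rev a) Z (2 * N) (insert w ((S \ Z) \ Y)) w) :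
    Core a (S \ Y) Y N := by
  intro s t hs ht hsY htY hst
  set R : Finset V := S \ Y with hR
  let ok : {x // x ∈ R} ⊕ Fin N → {x // x ∈ R} ⊕ Fin N → Prop := fun p q =>
    match p, q with
    | Sum.inl x, Sum.inl y => x = y ∨ a x.1 y.1
    | Sum.inl x, Sum.inr j => a x.1 (t j)
    | Sum.inr i, Sum.inl y => a (s i) y.1
    | Sum.inr i, Sum.inr j => a (s i) (t j)
  let col : {x // x ∈ R} ⊕ Fin N → Finset ({x // x ∈ R} ⊕ Fin N) := fun p =>
    Finset.univ.filter (fun q => ok p q)
  have hall : ∀ A : Finset ({x // x ∈ R} ⊕ Fin N), A.card ≤ (A.biUnion col).card := by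
    intro A
    by_contra hA
    push Not at hA
    have memB : ∀ q, q ∈ A.biUnion col ↔ ∃ p ∈ A, ok p q := by
      intro q
      simp [col]
    generalize A.biUnion col = B at hA memB
    have c1 : A.toLeft.card + A.toRight.card = A.card := Finset.card_toLeft_add_card_toRight
    have c2 : B.toLeft.card + B.toRight.card = B.card := Finset.card_toLeft_add_card_toRight
    have hAB : A.toLeft ⊆ B.toLeft := by
      intro x hx
      rw [Finset.mem_toLeft] at hx ⊢
      exact (memB _).2 ⟨_, hx, Or.inl rfl⟩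
    have c3 : (B.toLeft \ A.toLeft).card + A.toLeft.card = B.toLeft.card :=
      Finset.card_sdiff_add_card_eq_card hAB
    have c4 : A.toRight.card ≤ N := by
      have := Finset.card_le_univ A.toRight
      rwa [Fintype.card_fin] at this
    have c5 : B.toRight.card < N := by omega
    -- a source and a target
    obtain ⟨i, hi⟩ : A.toRight.Nonempty := by
      rw [← Finset.card_pos]
      omega
    obtain ⟨j, hj⟩ : ∃ j : Fin N, j ∉ B.toRight := by
      by_contra hc
      push Not at hc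
      have h1 : (Finset.univ : Finset (Fin N)) ⊆ B.toRight := fun j _ => hc j
      have h2 := Finset.card_le_card h1
      rw [Finset.card_univ, Fintype.card_fin] at h2
      omega
    rw [Finset.mem_toRight] at hi hj
    -- images in `V`
    set A1 : Finset V := A.toLeft.image Subtype.val with hA1
    set B1 : Finset V := B.toLeft.image Subtype.val with hB1
    have hA1m : ∀ v, v ∈ A1 ↔ ∃ h : v ∈ R, Sum.inl ⟨v, h⟩ ∈ A := by
      intro v
      rw [hA1, Finset.mem_image]
      constructor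
      · rintro ⟨x, hx, rfl⟩
        exact ⟨x.2, Finset.mem_toLeft.1 hx⟩
      · rintro ⟨h, h'⟩
        exact ⟨⟨v, h⟩, Finset.mem_toLeft.2 h', rfl⟩
    have hB1m : ∀ v, v ∈ B1 ↔ ∃ h : v ∈ R, Sum.inl ⟨v, h⟩ ∈ B := by
      intro v
      rw [hB1, Finset.mem_image]
      constructor
      · rintro ⟨x, hx, rfl⟩
        exact ⟨x.2, Finset.mem_toLeft.1 hx⟩
      · rintro ⟨h, h'⟩
        exact ⟨⟨v, h⟩, Finset.mem_toLeft.2 h', rfl⟩
    have hA1B1 : A1 ⊆ B1 := Finset.image_subset_image hAB
    have hC : (B1 \ A1).card = (B.toLeft \ A.toLeft).card := by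
      rw [hB1, hA1, ← Finset.image_sdiff _ _ Subtype.val_injective,
        Finset.card_image_of_injective _ Subtype.val_injective]
    have hCN : (B1 \ A1).card < N := by
      rw [hC]
      omega
    have hZR : Z ⊆ R := fun z hz => Finset.mem_sdiff.2 ⟨hZS hz, fun h =>
      Finset.disjoint_left.1 hYZ h hz⟩
    have hRm : ∀ v, v ∈ R ↔ v ∈ S ∧ v ∉ Y := fun v => Finset.mem_sdiff
    -- the source
    have e1 : 2 * N ≤ (B1 \ A1).card + (A1 ∩ Z).card := by
      have h1 := hout (s i) (hsY i) (insert (s i) (A1 \ Z)) (by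
        refine Finset.insert_subset_insert _ ?_
        intro v hv
        obtain ⟨hv1, hv2⟩ := Finset.mem_sdiff.1 hv
        obtain ⟨hvR, -⟩ := (hA1m v).1 hv1
        exact Finset.mem_sdiff.2 ⟨Finset.mem_sdiff.2 ⟨((hRm v).1 hvR).1, hv2⟩,
          ((hRm v).1 hvR).2⟩) (Finset.mem_insert_self _ _)
      refine h1.trans ((Finset.card_le_card ?_).trans (Finset.card_union_le _ _))
      intro y hy
      rw [mem_nb] at hy
      obtain ⟨hy1, hy2, z, hz, hzy⟩ := hy
      rw [Finset.mem_insert, not_or] at hy2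
      have hyR : y ∈ R := by
        rcases Finset.mem_union.1 hy1 with h2 | h2
        · rcases Finset.mem_insert.1 h2 with h3 | h3
          · exact absurd h3 hy2.1
          · obtain ⟨h4, h5⟩ := Finset.mem_sdiff.1 h3
            exact (hRm y).2 ⟨(Finset.mem_sdiff.1 h4).1, h5⟩
        · exact hZR h2
      have hyB : y ∈ B1 := by
        rw [hB1m]
        refine ⟨hyR, (memB _).2 ?_⟩
        rcases Finset.mem_insert.1 hz with h2 | h2
        · refine ⟨Sum.inr i, hi, ?_⟩
          change a (s i) y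
          rw [← h2]
          exact hzy
        · obtain ⟨hzR, hzA⟩ := (hA1m z).1 (Finset.mem_sdiff.1 h2).1
          exact ⟨_, hzA, Or.inr hzy⟩
      rw [Finset.mem_union, Finset.mem_sdiff, Finset.mem_inter]
      by_cases hyA : y ∈ A1
      · right
        refine ⟨hyA, ?_⟩
        by_contra hyZ
        exact hy2.2 (Finset.mem_sdiff.2 ⟨hyA, hyZ⟩)
      · exact Or.inl ⟨hyB, hyA⟩
    -- the target
    have e2 : 2 * N ≤ (B1 \ A1).card + (Z \ B1).card := by
      have h1 := hin (t j) (htY j) (insert (t j) ((R \ B1) \ Z)) (by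
        refine Finset.insert_subset_insert _ ?_
        intro v hv
        obtain ⟨hv1, hv2⟩ := Finset.mem_sdiff.1 hv
        obtain ⟨hvR, -⟩ := Finset.mem_sdiff.1 hv1
        exact Finset.mem_sdiff.2 ⟨Finset.mem_sdiff.2 ⟨((hRm v).1 hvR).1, hv2⟩,
          ((hRm v).1 hvR).2⟩) (Finset.mem_insert_self _ _)
      refine h1.trans ((Finset.card_le_card ?_).trans (Finset.card_union_le _ _))
      intro y hy
      rw [mem_nb] at hy
      obtain ⟨hy1, hy2, z, hz, hzy⟩ := hy
      rw [Finset.mem_insert, not_or] at hy2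
      have hyR : y ∈ R := by
        rcases Finset.mem_union.1 hy1 with h2 | h2
        · rcases Finset.mem_insert.1 h2 with h3 | h3
          · exact absurd h3 hy2.1
          · obtain ⟨h4, h5⟩ := Finset.mem_sdiff.1 h3
            exact (hRm y).2 ⟨(Finset.mem_sdiff.1 h4).1, h5⟩
        · exact hZR h2
      have hyA : y ∉ A1 := by
        intro hyA
        obtain ⟨hyR', hyA'⟩ := (hA1m y).1 hyA
        rcases Finset.mem_insert.1 hz with h2 | h2
        · apply hj
          refine (memB _).2 ⟨_, hyA', ?_⟩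
          change a y (t j)
          rw [← h2]
          exact hzy
        · obtain ⟨hz1, hz2⟩ := Finset.mem_sdiff.1 h2
          obtain ⟨hzR, hzB⟩ := Finset.mem_sdiff.1 hz1
          exact hzB ((hB1m z).2 ⟨hzR, (memB _).2 ⟨_, hyA', Or.inr hzy⟩⟩)
      rw [Finset.mem_union, Finset.mem_sdiff, Finset.mem_sdiff]
      by_cases hyB : y ∈ B1
      · exact Or.inl ⟨hyB, hyA⟩
      · right
        refine ⟨?_, hyB⟩
        by_contra hyZ
        exact hy2.2 (Finset.mem_sdiff.2 ⟨Finset.mem_sdiff.2 ⟨hyR, hyB⟩, hyZ⟩)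
    have e3 : (A1 ∩ Z).card + (Z \ B1).card ≤ Z.card := by
      rw [← Finset.card_union_of_disjoint]
      · apply Finset.card_le_card
        exact Finset.union_subset Finset.inter_subset_right Finset.sdiff_subset
      · rw [Finset.disjoint_left]
        intro y hy hy'
        exact (Finset.mem_sdiff.1 hy').2 (hA1B1 (Finset.mem_inter.1 hy).1)
    omega
  obtain ⟨f, hf, hfc⟩ := (Finset.all_card_le_biUnion_card_iff_exists_injective col).1 hall
  have hok : ∀ p, ok p (f p) := fun p => (Finset.mem_filter.1 (hfc p)).2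
  refine lk_of_succ f hf ?_ ?_ ?_ ?_
  · intro x y h
    have h1 := hok (Sum.inl x)
    rw [h] at h1
    exact h1
  · intro x j h
    have h1 := hok (Sum.inl x)
    rw [h] at h1
    exact h1
  · intro i y h
    have h1 := hok (Sum.inr i)
    rw [h] at h1
    exact h1
  · intro i j h
    have h1 := hok (Sum.inr i)
    rw [h] at h1
    exact h1

end Pool.Agent.OSX82
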