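import Pool.Agent.OSX82.CoreLin
import Pool.Agent.MDP.Bags
import Pool.Agent.MDP.Robust
import Pool.Agent.MDP.ConnUnion
import Pool.Agent.MDP.Branch
import Pool.Agent.MDP.Freeing

/-! Assembly from a core. -/

open Classical

namespace Pool.Agent.OSX82

open Pool.Agent.Mader Pool.Agent.MDP

universe u

private theorem asm_sdiff {W : Type u} {A B : Finset W} {i1 i2 : DecidableEq W} {b : W}
    (h : b ∈ @SDiff.sdiff _ (@Finset.instSDiff W i1) A B) :
    b ∈ @SDiff.sdiff _ (@Finset.instSDiff W i2) A B := by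
  have hi : i1 = i2 := Subsingleton.elim _ _
  subst hi
  exact h

/-- `N` different elements of a finset with at least `N` elements. -/
private theorem asm_pick {α : Type u} {X : Finset α} {N : ℕ} (h : N ≤ X.card) :
    ∃ g : Fin N → α, Function.Injective g ∧ ∀ i, g i ∈ X := by
  obtain ⟨T, hT, hTc⟩ := Finset.exists_subset_card_eq (s := X) (n := N) h
  refine ⟨fun i => ((T.equivFin.symm (Fin.cast hTc.symm i) : T) : α), ?_, fun i =>
    hT (T.equivFin.symm (Fin.cast hTc.symm i)).2⟩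
  intro i j hij
  exact Fin.cast_injective _ (T.equivFin.symm.injective (Subtype.ext hij))

private theorem asm_mono {α : Type u} {r p : α → α → Prop} (h : ∀ x y, r x y → p x y) {x y : α}
    (hxy : Relation.ReflTransGen r x y) : Relation.ReflTransGen p x y := by
  induction hxy with
  | refl => exact Relation.ReflTransGen.refl
  | tail _ h2 ih => exact ih.tail (h _ _ h2)

private theorem asm_reach {V : Type u} {a : V → V → Prop} {X : Finset V} (h : Conn a X) {x y : V}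
    (hx : x ∈ X) (hy : y ∈ X) :
    Relation.ReflTransGen (fun p q => a p q ∧ p ∈ X ∧ q ∈ X) x y := by
  have hZ : X.filter (fun z => Relation.ReflTransGen (fun p q => a p q ∧ p ∈ X ∧ q ∈ X) x z) =
      X := by
    apply h.eq_of_closed (Finset.filter_subset _ _)
    · exact ⟨x, Finset.mem_filter.mpr ⟨hx, Relation.ReflTransGen.refl⟩⟩
    · intro u hu v hv huv
      rw [Finset.mem_filter] at hu ⊢
      exact ⟨hv, hu.2.tail ⟨huv, hu.1, hv⟩⟩
  rw [← hZ, Finset.mem_filter] at hy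
  exact hy.2

/-- The assembly, in terms of disjoint sets `T e` which contain the interiors of the paths.

Proof. (1) Given `Y1`, `¬ Col a Y1 (578 * (n + N))`, `Core a (univ \ Y1) Y1 N`.
(2) `thmA` in `Y1` with `c = 4 * (n + N)`: `W1 ⊆ Y1`, `¬ Col a W1 (570 * (n + N))`, no
`4 * (n + N)` vertices separate two vertices of `W1` in `Y1`.
(3) `branch` in `W1` (`d = 570 * (n + N)`): `x, o, f`. Let `F0` be the set of all `x i`, `o e`,
`f e` (`n + 2 * N` elements) and `W2 = W1 \ F0`: not `Col` with `564 * (n + N)` colours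
(`Col.union`, `Col.card`).
(4) `bags` in `W2` with `d = 2 * (70 * (2 * N) + 1)` (`2 * d = 560 * N + 4 ≤ 564 * (n + N)`),
then `robust` with `M = 2 * N` for `Adj2 a`: `𝒯`, with `deg > 140 * N + 1`, and linkedness for
`F.card + X.card ≤ 4 * N`.
(5) `freeing` with `S = Y1 \ ({x i} ∪ {o e})`, `ℬ = 𝒯`, targets `f` (`hlink`: for
`C.card ≤ 3 * N` use (2) with `C ∪ {x i} ∪ {o e}`, at most `4 * N + n` vertices; `hdeg` from the
degrees): `F`, `B`, `z`, `I2`.
(6) `𝒯 \ (F ∪ {B e})` has at least `N` bags (`deg > 140 * N`), choose `N` different bags `B1 k`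
and `z1 k ∈ B1 k`. By (1) for `s = o`, `t = z1`: `π`, `I1`.
(7) `robust` for `F` and `X = {B1 k} ∪ {B e}` (`2 * N + 2 * N ≤ 4 * N`) and the labelling `c` with
`c (B e) = e`, `c (B1 (π e)) = e` (a function `Finset V → ULift (Fin N)` or so: labels have to be
in `Type u`): connected families `C e ∋ B e, B1 (π e)` of bags of `𝒯 \ F`, disjoint for different
`e`. Let `J e = (C e).biUnion id`, strongly connected (`conn_union`), containing `z e` and
`z1 (π e)`.
(8) `T e = {o e} ∪ I1 e ∪ J e ∪ I2 e`. The walk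
`x (tl e) → o e ⇝ z1 (π e) ⇝ z e ⇝ f e → x (hd e)` (`asm_reach` for the part in `J e`).
Disjointness: `I1 e ⊆ univ \ Y1`, everything else is in `Y1`; `J e` is a union of bags of
`𝒯 \ F`, contained in `W2`, so contains no `x, o, f`, and is disjoint from `I2`; `I2 e'` is in
`S`, contains no `x`, `o`. -/
theorem assemble_core {V : Type u} [Fintype V] {a : V → V → Prop} (hirr : ∀ v, ¬ a v v) {n N : ℕ}
    (hn : 1 ≤ n) (hN : 1 ≤ N) (tl hd : Fin N → Fin n) {Y1 : Finset V}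
    (hY1 : ¬ Col a Y1 (578 * (n + N))) (hcore : Core a (Finset.univ \ Y1) Y1 N) :
    ∃ (x : Fin n → V) (T : Fin N → Finset V), Function.Injective x ∧
      (∀ e i, x i ∉ T e) ∧ (∀ e e', e ≠ e' → Disjoint (T e) (T e')) ∧
      ∀ e, Relation.ReflTransGen (fun u v => a u v ∧ (v ∈ T e ∨ v = x (hd e)))
        (x (tl e)) (x (hd e)) := by
  have e1 : 578 * (n + N) = 570 * (n + N) + 2 * (4 * (n + N)) := by ring
  rw [e1] at hY1
  obtain ⟨W1, hW1, hW1c, hsep⟩ := thmA (by omega) hY1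
  obtain ⟨x, o, f, hxi, hoi, hfi, hxo, hxf, hof, hxW, hoW, hfW⟩ :=
    branch hirr (n := n) (N := N) hW1c (by omega) tl hd
  set Ix : Finset V := Finset.univ.image x with hIx
  set Io : Finset V := Finset.univ.image o with hIo
  set If : Finset V := Finset.univ.image f with hIf
  have hIxc : Ix.card ≤ n := Finset.card_image_le.trans (by simp)
  have hIoc : Io.card ≤ N := Finset.card_image_le.trans (by simp)
  have hIfc : If.card ≤ N := Finset.card_image_le.trans (by simp)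
  set F0 : Finset V := Ix ∪ Io ∪ If with hF0
  have hF0c : F0.card ≤ n + 2 * N := by
    have h1 := Finset.card_union_le (Ix ∪ Io) If
    have h2 := Finset.card_union_le Ix Io
    change (Ix ∪ Io ∪ If).card ≤ _
    omega
  set W2 : Finset V := W1 \ F0 with hW2
  have hmx : ∀ i, x i ∈ F0 := fun i => Finset.mem_union_left _ (Finset.mem_union_left _
    (Finset.mem_image_of_mem x (Finset.mem_univ i)))
  have hmo : ∀ e, o e ∈ F0 := fun e => Finset.mem_union_left _ (Finset.mem_union_right _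
    (Finset.mem_image_of_mem o (Finset.mem_univ e)))
  have hmf : ∀ e, f e ∈ F0 := fun e => Finset.mem_union_right _
    (Finset.mem_image_of_mem f (Finset.mem_univ e))
  have hW2c : ¬ Col a W2 (2 * (2 * (70 * (2 * N) + 1))) := by
    intro hc
    apply hW1c
    refine (Col.union hc (Col.card hirr F0)).mono ?_ ?_
    · intro v hv
      by_cases hv0 : v ∈ F0
      · exact Finset.mem_union_right _ hv0
      · exact Finset.mem_union_left _ (Finset.mem_sdiff.2 ⟨hv, hv0⟩)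
    · omega
  obtain ⟨ℬ, hℬne, hℬ, hℬdis, hℬdeg⟩ := bags hirr (by omega) hW2c
  obtain ⟨𝒯, h𝒯, h𝒯ne, h𝒯deg, h𝒯link⟩ := robust (r := Adj2 a) Adj2.symm Adj2.irrefl hℬne
    (M := 2 * N) (by omega) hℬdeg
  have hbW2 : ∀ b ∈ 𝒯, b ⊆ W2 := fun b hb => (hℬ b (h𝒯 hb)).2
  have hbC : ∀ b ∈ 𝒯, Conn a b := fun b hb => (hℬ b (h𝒯 hb)).1
  have hdis : ∀ b ∈ 𝒯, ∀ b' ∈ 𝒯, b ≠ b' → Disjoint b b' := fun b hb b' hb' =>
    hℬdis b (h𝒯 hb) b' (h𝒯 hb')
  have hW21 : ∀ v ∈ W2, v ∈ W1 ∧ v ∉ F0 := fun v hv => Finset.mem_sdiff.1 hv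
  set S : Finset V := Y1 \ (Ix ∪ Io) with hS
  have hnS : ∀ v, v ∉ F0 → v ∉ Ix ∪ Io := fun v hv hc => hv (Finset.mem_union_left _ hc)
  have hcS : (Ix ∪ Io).card ≤ n + N := by
    have h2 := Finset.card_union_le Ix Io
    omega
  have hfn : ∀ e, f e ∉ Ix ∪ Io := by
    intro e hc
    rcases Finset.mem_union.1 hc with hc | hc
    · obtain ⟨i, _, hi⟩ := Finset.mem_image.1 hc
      exact hxf i e hi
    · obtain ⟨i, _, hi⟩ := Finset.mem_image.1 hc
      exact hof i e hi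
  obtain ⟨F, hFT, hFc, B, z, I2, hBi, hB, hI2, hI2d, hI2w⟩ := freeing (S := S) (N := N)
    h𝒯ne (fun b hb => ⟨hbC b hb, fun v hv => Finset.mem_sdiff.2
      ⟨hW1 (hW21 v (hbW2 b hb hv)).1, hnS v (hW21 v (hbW2 b hb hv)).2⟩⟩) hdis (by
      intro b hb
      have h1 := h𝒯deg b hb
      have h2 : deg (Adj2 a) 𝒯 b ≤
          (𝒯.filter (fun b' => b' ≠ b ∧ ∃ x ∈ b', ∃ y ∈ b, a x y)).card := by
        apply Finset.card_le_card
        intro b' hb'
        rw [Finset.mem_filter] at hb' ⊢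
        exact ⟨hb'.1, hb'.2.1.symm, hb'.2.2.2⟩
      omega) hfi (fun i => Finset.mem_sdiff.2 ⟨hW1 (hfW i).1, hfn i⟩)
    (fun i b hb hc => (hW21 _ (hbW2 b hb hc)).2 (hmf i)) (by
      intro C hC b hb v hv hvC i hiC
      have h1 := hsep (C ∪ (Ix ∪ Io)) (by
        have h2 := Finset.card_union_le C (Ix ∪ Io)
        omega) v (hW21 v (hbW2 b hb hv)).1 (by
        rw [Finset.mem_union]
        rintro (h3 | h3)
        · exact hvC h3
        · exact hnS v (hW21 v (hbW2 b hb hv)).2 h3) (f i) (hfW i).1 (by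
        rw [Finset.mem_union]
        rintro (h3 | h3)
        · exact hiC h3
        · exact hfn i h3)
      refine asm_mono ?_ h1
      rintro p q ⟨h3, h4, h5⟩
      rw [Finset.mem_union] at h5
      exact ⟨h3, Finset.mem_sdiff.2 ⟨h4, fun h6 => h5 (Or.inr h6)⟩, fun h6 => h5 (Or.inl h6)⟩)
  -- further bags
  have h𝒯card : 140 * N + 1 < 𝒯.card := by
    obtain ⟨b, hb⟩ := h𝒯ne
    have h1 := h𝒯deg b hb
    have h2 : deg (Adj2 a) 𝒯 b ≤ 𝒯.card := Finset.card_le_card (Finset.filter_subset _ _)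
    omega
  set IB : Finset (Finset V) := Finset.univ.image B with hIB
  have hIBc : IB.card ≤ N := Finset.card_image_le.trans (by simp)
  obtain ⟨B1, hB1i, hB1⟩ := asm_pick (X := 𝒯 \ (F ∪ IB)) (N := N) (by
    have h1 := Finset.le_card_sdiff (F ∪ IB) 𝒯
    have h2 := Finset.card_union_le F IB
    omega)
  have hB1T : ∀ k, B1 k ∈ 𝒯 := fun k => (Finset.mem_sdiff.1 (hB1 k)).1
  have hB1F : ∀ k, B1 k ∉ F := fun k hc =>
    (Finset.mem_sdiff.1 (hB1 k)).2 (Finset.mem_union_left _ hc)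
  have hB1B : ∀ k e, B e ≠ B1 k := fun k e hc =>
    (Finset.mem_sdiff.1 (hB1 k)).2 (Finset.mem_union_right _
      (hc ▸ Finset.mem_image_of_mem B (Finset.mem_univ e)))
  have hz1 : ∀ k, ∃ v, v ∈ B1 k := fun k => (hbC _ (hB1T k)).1
  choose z1 hz1 using hz1
  have hz1W : ∀ k, z1 k ∈ W2 := fun k => hbW2 _ (hB1T k) (hz1 k)
  obtain ⟨π, I1, hI1, hI1d, hI1w⟩ := hcore o z1 hoi (by
    intro i j hij
    by_contra hne
    have h1 := hdis _ (hB1T i) _ (hB1T j) (fun hc => hne (hB1i hc))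
    exact Finset.disjoint_left.1 h1 (hz1 i) (hij ▸ hz1 j)) (fun i => hW1 (hoW i).1)
    (fun i => hW1 (hW21 _ (hz1W i)).1) (fun i j hc => (hW21 _ (hz1W j)).2 (hc ▸ hmo i))
  -- linking of the bags
  have huniq : ∀ b e e', (b = B e ∨ b = B1 (π e)) → (b = B e' ∨ b = B1 (π e')) → e = e' := by
    rintro b e e' (h1 | h1) (h2 | h2)
    · exact hBi (h1.symm.trans h2)
    · exact absurd (h1.symm.trans h2) (hB1B _ _)
    · exact absurd (h2.symm.trans h1) (hB1B _ _)
    · exact π.injective (hB1i (h1.symm.trans h2))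
  obtain ⟨c, hc⟩ : ∃ c : Finset V → ULift.{u} (Fin N),
      ∀ e, c (B e) = ⟨e⟩ ∧ c (B1 (π e)) = ⟨e⟩ := by
    refine ⟨fun b => if hb : ∃ e, b = B e ∨ b = B1 (π e) then ⟨hb.choose⟩ else ⟨⟨0, hN⟩⟩, ?_⟩
    have key : ∀ b e, (b = B e ∨ b = B1 (π e)) →
        (if hb : ∃ e, b = B e ∨ b = B1 (π e) then (⟨hb.choose⟩ : ULift.{u} (Fin N))
          else ⟨⟨0, hN⟩⟩) = ⟨e⟩ := by
      intro b e hb
      have hex : ∃ e, b = B e ∨ b = B1 (π e) := ⟨e, hb⟩
      rw [dif_pos hex]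
      have h1 := huniq b _ _ hex.choose_spec hb
      rw [h1]
    exact fun e => ⟨key _ e (Or.inl rfl), key _ e (Or.inr rfl)⟩
  obtain ⟨C, hC1, hC2⟩ := h𝒯link F (IB ∪ Finset.univ.image B1) hFT (by
    intro b hb
    rcases Finset.mem_union.1 hb with hb | hb
    · obtain ⟨i, _, rfl⟩ := Finset.mem_image.1 hb
      exact (hB i).1
    · obtain ⟨i, _, rfl⟩ := Finset.mem_image.1 hb
      exact hB1T i) (by
    rw [Finset.disjoint_left]
    intro b hbF hb
    rcases Finset.mem_union.1 hb with hb | hb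
    · obtain ⟨i, _, rfl⟩ := Finset.mem_image.1 hb
      exact (hB i).2.1 hbF
    · obtain ⟨i, _, rfl⟩ := Finset.mem_image.1 hb
      exact hB1F i hbF) (by
    have h1 := Finset.card_union_le IB (Finset.univ.image B1)
    have h2 : (Finset.univ.image B1).card ≤ N := Finset.card_image_le.trans (by simp)
    omega) (ULift.{u} (Fin N)) c
  have hmB : ∀ e, B e ∈ IB ∪ Finset.univ.image B1 := fun e =>
    Finset.mem_union_left _ (Finset.mem_image_of_mem B (Finset.mem_univ e))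
  have hmB1 : ∀ k, B1 k ∈ IB ∪ Finset.univ.image B1 := fun k =>
    Finset.mem_union_right _ (Finset.mem_image_of_mem B1 (Finset.mem_univ k))
  set D : Fin N → Finset (Finset V) := fun e => C ⟨e⟩ with hD
  have hDB : ∀ e, B e ∈ D e ∧ D e ⊆ 𝒯 \ F ∧ Conn (Adj2 a) (D e) := by
    intro e
    have h1 := hC1 (B e) (hmB e)
    rw [(hc e).1] at h1
    refine ⟨h1.1, fun b hb => ?_, h1.2.2⟩
    have h3 := h1.2.1 hb
    exact asm_sdiff h3
  have hDB1 : ∀ e, B1 (π e) ∈ D e := by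
    intro e
    have h1 := (hC1 (B1 (π e)) (hmB1 _)).1
    rw [(hc e).2] at h1
    exact h1
  have hDd : ∀ e e', e ≠ e' → Disjoint (D e) (D e') := by
    intro e e' hne
    have h1 := hC2 (B e) (hmB e) (B e') (hmB e') (by
      rw [(hc e).1, (hc e').1]
      intro h2
      exact hne (congrArg ULift.down h2))
    rw [(hc e).1, (hc e').1] at h1
    exact h1
  set J : Fin N → Finset V := fun e => (D e).biUnion id with hJ
  have hJm : ∀ e v, v ∈ J e → ∃ b ∈ D e, v ∈ b := by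
    intro e v hv
    obtain ⟨b, hb, hvb⟩ := Finset.mem_biUnion.1 hv
    exact ⟨b, hb, hvb⟩
  have hJm' : ∀ e v b, b ∈ D e → v ∈ b → v ∈ J e := fun e v b hb hv =>
    Finset.mem_biUnion.2 ⟨b, hb, hv⟩
  have hDT : ∀ e, ∀ b ∈ D e, b ∈ 𝒯 ∧ b ∉ F := fun e b hb =>
    Finset.mem_sdiff.1 ((hDB e).2.1 hb)
  have hJc : ∀ e, Conn a (J e) := fun e =>
    conn_union (hDB e).2.2 (fun b hb => hbC b (hDT e b hb).1)
  have hJW : ∀ e, ∀ v ∈ J e, v ∈ Y1 ∧ v ∉ F0 := by
    intro e v hv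
    obtain ⟨b, hb, hvb⟩ := hJm e v hv
    have h1 := hW21 v (hbW2 b (hDT e b hb).1 hvb)
    exact ⟨hW1 h1.1, h1.2⟩
  have hJd : ∀ e e', e ≠ e' → ∀ v, v ∈ J e → v ∉ J e' := by
    intro e e' hne v hv hv'
    obtain ⟨b, hb, hvb⟩ := hJm e v hv
    obtain ⟨b', hb', hvb'⟩ := hJm e' v hv'
    by_cases hbb : b = b'
    · subst hbb
      exact Finset.disjoint_left.1 (hDd e e' hne) hb hb'
    · exact Finset.disjoint_left.1 (hdis b (hDT e b hb).1 b' (hDT e' b' hb').1 hbb) hvb hvb'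
  have hJI : ∀ e e' v, v ∈ J e → v ∉ I2 e' := by
    intro e e' v hv hv'
    obtain ⟨b, hb, hvb⟩ := hJm e v hv
    exact Finset.disjoint_left.1 ((hI2 e').2.2 b (hDT e b hb).1 (hDT e b hb).2) hv' hvb
  have hI2S : ∀ e, ∀ v ∈ I2 e, v ∈ Y1 ∧ v ∉ Ix ∪ Io := fun e v hv =>
    Finset.mem_sdiff.1 ((hI2 e).1 hv)
  have hI1Y : ∀ e, ∀ v ∈ I1 e, v ∉ Y1 := fun e v hv => (Finset.mem_sdiff.1 (hI1 e hv)).2
  have hxY : ∀ i, x i ∈ Y1 := fun i => hW1 (hxW i)
  have hoY : ∀ e, o e ∈ Y1 := fun e => hW1 (hoW e).1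
  have hxIo : ∀ i, x i ∈ Ix ∪ Io := fun i =>
    Finset.mem_union_left _ (Finset.mem_image_of_mem x (Finset.mem_univ i))
  have hoIo : ∀ e, o e ∈ Ix ∪ Io := fun e =>
    Finset.mem_union_right _ (Finset.mem_image_of_mem o (Finset.mem_univ e))
  have hTm : ∀ e v, v ∈ ({o e} ∪ (I1 e ∪ (J e ∪ I2 e)) : Finset V) ↔
      v = o e ∨ v ∈ I1 e ∨ v ∈ J e ∨ v ∈ I2 e := by
    intro e v
    simp only [Finset.mem_union, Finset.mem_singleton]
  refine ⟨x, fun e => {o e} ∪ (I1 e ∪ (J e ∪ I2 e)), hxi, ?_, ?_, ?_⟩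
  · intro e i hc
    rcases (hTm e _).1 hc with h1 | h1 | h1 | h1
    · exact hxo i e h1
    · exact hI1Y e _ h1 (hxY i)
    · exact (hJW e _ h1).2 (hmx i)
    · exact (hI2S e _ h1).2 (hxIo i)
  · intro e e' hne
    rw [Finset.disjoint_left]
    intro v hv hv'
    rcases (hTm e v).1 hv with h1 | h1 | h1 | h1 <;>
      rcases (hTm e' v).1 hv' with h2 | h2 | h2 | h2
    · exact hne (hoi (h1.symm.trans h2))
    · exact hI1Y e' v h2 (h1 ▸ hoY e)
    · exact (hJW e' v h2).2 (h1 ▸ hmo e)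
    · exact (hI2S e' v h2).2 (h1 ▸ hoIo e)
    · exact hI1Y e v h1 (h2 ▸ hoY e')
    · exact Finset.disjoint_left.1 (hI1d e e' hne) h1 h2
    · exact hI1Y e v h1 (hJW e' v h2).1
    · exact hI1Y e v h1 (hI2S e' v h2).1
    · exact (hJW e v h1).2 (h2 ▸ hmo e')
    · exact hI1Y e' v h2 (hJW e v h1).1
    · exact hJd e e' hne v h1 h2
    · exact hJI e e' v h1 h2
    · exact (hI2S e v h1).2 (h2 ▸ hoIo e')
    · exact hI1Y e' v h2 (hI2S e v h1).1
    · exact hJI e' e v h2 h1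
    · exact Finset.disjoint_left.1 (hI2d e e' hne) h1 h2
  · intro e
    have w1 : Relation.ReflTransGen (fun u v => a u v ∧
        (v ∈ ({o e} ∪ (I1 e ∪ (J e ∪ I2 e)) : Finset V) ∨ v = x (hd e))) (x (tl e)) (o e) :=
      Relation.ReflTransGen.single ⟨(hoW e).2, Or.inl ((hTm e _).2 (Or.inl rfl))⟩
    have w2 : Relation.ReflTransGen (fun u v => a u v ∧
        (v ∈ ({o e} ∪ (I1 e ∪ (J e ∪ I2 e)) : Finset V) ∨ v = x (hd e))) (o e) (z1 (π e)) := by
      refine asm_mono ?_ (hI1w e)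
      rintro p q ⟨hpq, h1⟩
      refine ⟨hpq, Or.inl ((hTm e _).2 ?_)⟩
      rcases h1 with h1 | h1
      · exact Or.inr (Or.inl h1)
      · rw [h1]
        exact Or.inr (Or.inr (Or.inl (hJm' e _ _ (hDB1 e) (hz1 _))))
    have w3 : Relation.ReflTransGen (fun u v => a u v ∧
        (v ∈ ({o e} ∪ (I1 e ∪ (J e ∪ I2 e)) : Finset V) ∨ v = x (hd e))) (z1 (π e)) (z e) :=
      asm_mono (fun p q hpq =>
        ⟨hpq.1, Or.inl ((hTm e _).2 (Or.inr (Or.inr (Or.inl hpq.2.2))))⟩)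
        (asm_reach (hJc e) (hJm' e _ _ (hDB1 e) (hz1 _)) (hJm' e _ _ (hDB e).1 (hB e).2.2))
    have w4 : Relation.ReflTransGen (fun u v => a u v ∧
        (v ∈ ({o e} ∪ (I1 e ∪ (J e ∪ I2 e)) : Finset V) ∨ v = x (hd e))) (z e) (f e) :=
      asm_mono (fun p q hpq =>
        ⟨hpq.1, Or.inl ((hTm e _).2 (Or.inr (Or.inr (Or.inr hpq.2))))⟩) (hI2w e)
    exact ((w1.trans w2).trans (w3.trans w4)).tail ⟨(hfW e).2, Or.inr rfl⟩

end Pool.Agent.OSX82
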