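import Pool.Agent.OSX82.Core
import Pool.Agent.OrdThm.OSJ

/-! The core theorem: linear cost for colourings with forbidden colours, hence cost `N * k` for
ordinary colourings. -/

open Classical

namespace Pool.Agent.OSX82

open Pool.Agent.MDP (Col Core thmA)
open Pool.Agent.OrdThm (LCol one_sided_junk)

universe u

variable {V : Type u}

/-- The core theorem in list form.

Proof. `thmA` (halving) with `c = 2 * N` gives `W`; `Z` = any `2 * N` vertices of `W`,
`T = W \ Z`. All vertices of `T` are attached to `Z` and from `Z` in `X = S \ Z`.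
`one_sided_junk` for `T` gives `W0 ⊆ T`, `one_sided_junk` for the reversed digraph and `W0`
gives `W1 ⊆ W0`; then `core_of_att`. -/
theorem core_list {a : V → V → Prop} (hirr : ∀ v, ¬ a v v) {N : ℕ} (hN : 1 ≤ N)
    {S : Finset V} {k : ℕ} (h : ¬ Col a S (4 * k + 64 * N)) :
    ∃ Y ⊆ S, ¬ LCol a (4 * N) Y k ∧ Core a (S \ Y) Y N := by
  have e0 : 4 * k + 64 * N = (4 * k + 60 * N) + 2 * (2 * N) := by ring
  rw [e0] at h
  obtain ⟨W, hWS, hW, hlink⟩ := thmA (by omega) h
  have hWc : 2 * N ≤ W.card := by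
    by_contra hlt
    exact hW ((Col.card hirr W).mono (Finset.Subset.refl _) (by omega))
  obtain ⟨Z, hZW, hZ⟩ := Finset.exists_subset_card_eq hWc
  have hZS : Z ⊆ S := hZW.trans hWS
  have hXZ : Disjoint (S \ Z) Z := Finset.sdiff_disjoint
  have hTX : W \ Z ⊆ S \ Z := Finset.sdiff_subset_sdiff hWS (Finset.Subset.refl _)
  have hTc : ¬ Col a (W \ Z) (9 * (2 * N) + 2 * (9 * (2 * N) + 2 * N + 2 * k)) := by
    intro hc
    apply hW
    refine (Col.union hc (Col.card hirr Z)).mono ?_ ?_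
    · intro v hv
      by_cases hvZ : v ∈ Z
      · exact Finset.mem_union_right _ hvZ
      · exact Finset.mem_union_left _ (Finset.mem_sdiff.2 ⟨hv, hvZ⟩)
    · rw [hZ]
      omega
  obtain ⟨W0, hW0, hatt0, hcol0⟩ : ∃ W0 ⊆ W \ Z,
      (∀ w ∈ W0, OrdThm.Att a Z (2 * N) (insert w ((S \ Z) \ W0)) w) ∧
      ¬ LCol a (0 + 2 * N) W0 (9 * (2 * N) + 2 * N + 2 * k) := by
    by_contra hcon
    push Not at hcon
    have h1 := one_sided_junk hirr (a := a) (T := W \ Z) (X := S \ Z) (Z := Z) (N := 2 * N)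
      (m := 0) (k := 9 * (2 * N) + 2 * N + 2 * k) (by omega) hTX hXZ
      (fun v hv => att_of_walk (by omega) hWS hZW hZ.ge hlink (Finset.mem_sdiff.1 hv).1)
      (fun W' hW' hatt => hcon W' hW' hatt)
    exact hTc (col_of_lcol h1)
  rw [Nat.zero_add] at hcol0
  obtain ⟨W1, hW1, hatt1, hcol1⟩ : ∃ W1 ⊆ W0,
      (∀ w ∈ W1, OrdThm.Att (rev a) Z (2 * N) (insert w ((S \ Z) \ W1)) w) ∧
      ¬ LCol (rev a) (2 * N + 2 * N) W1 k := by
    by_contra hcon
    push Not at hcon
    have h1 := one_sided_junk (a := rev a) hirr (T := W0) (X := S \ Z) (Z := Z) (N := 2 * N)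
      (m := 2 * N) (k := k) (by omega) (hW0.trans hTX) hXZ
      (fun v hv => att_of_walk_rev (by omega) hWS hZW hZ.ge hlink
        (Finset.mem_sdiff.1 (hW0 hv)).1)
      (fun W' hW' hatt => hcon W' hW' hatt)
    exact hcol0 (lcol_rev h1)
  have hWX : W1 ⊆ S \ Z := hW1.trans (hW0.trans hTX)
  refine ⟨W1, hWX.trans Finset.sdiff_subset, ?_, ?_⟩
  · intro hc
    apply hcol1
    have h1 := lcol_rev hc
    have e1 : 2 * N + 2 * N = 4 * N := by ring
    rw [e1]
    exact h1
  · refine core_of_att (hWX.trans Finset.sdiff_subset) hZS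
      (Finset.disjoint_left.2 fun v hv => (Finset.mem_sdiff.1 (hWX hv)).2) hZ ?_ hatt1
    intro w hw
    refine (hatt0 w (hW1 hw)).mono ?_ (Finset.mem_insert_self _ _) ?_
    · exact Finset.insert_subset_insert _ (Finset.sdiff_subset_sdiff (Finset.Subset.refl _) hW1)
    · rw [Finset.disjoint_left]
      intro v hv
      rcases Finset.mem_insert.1 hv with h1 | h1
      · rw [h1]
        exact (Finset.mem_sdiff.1 (hWX hw)).2
      · exact (Finset.mem_sdiff.1 (Finset.mem_sdiff.1 h1).1).2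

/-- The core theorem for ordinary colourings, with the factor `4 * (4 * N + 1)`. -/
theorem core_three {a : V → V → Prop} (hirr : ∀ v, ¬ a v v) {N : ℕ} (hN : 1 ≤ N)
    {S : Finset V} {k : ℕ} (h : ¬ Col a S (4 * (k * (4 * N + 1)) + 64 * N)) :
    ∃ Y ⊆ S, ¬ Col a Y k ∧ Core a (S \ Y) Y N := by
  obtain ⟨Y, hY, hc, hcore⟩ := core_list hirr hN h
  exact ⟨Y, hY, fun hc' => hc (lcol_of_col _ hc'), hcore⟩

end Pool.Agent.OSX82
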