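import Pool.Agent.OSX82.PlainCoreH

/-! The complete digraph with arcs in both directions. -/

open Classical

namespace Pool.Agent.OSX82

open Pool.Agent.Mader

/-- The complete digraph with arcs in both directions. -/
def Kn (n : ℕ) : Digraph (Fin n) := ⟨fun i j => i ≠ j⟩

theorem card_kn (n : ℕ) :
    n + Nat.card {e : Fin n × Fin n // (Kn n).Adj e.1 e.2} = n ^ 2 := by
  have h1 : Nat.card {e : Fin n × Fin n // (Kn n).Adj e.1 e.2} =
      ((Finset.univ : Finset (Fin n)).offDiag).card := by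
    rw [Nat.card_eq_fintype_card, Fintype.card_subtype]
    congr 1
    ext e
    simp [Kn, Finset.mem_offDiag]
  rw [h1, Finset.offDiag_card, Finset.card_univ, Fintype.card_fin]
  have h2 : n ≤ n * n := Nat.le_mul_self n
  rw [sq]
  omega

/-- The quadratic bound in the form of the frozen statement. -/
theorem quadratic_of_linear
    (h : ∃ c : ℕ, 0 < c ∧ ∀ n : ℕ, 0 < n → ∀ F : Digraph (Fin n),
      (∀ i, ¬ F.Adj i i) → ∀ (V : Type) [Fintype V] (D : Digraph V), (∀ v, ¬ D.Adj v v) →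
        (¬ ∃ col : V → Fin (c * (n + Nat.card {e : Fin n × Fin n // F.Adj e.1 e.2}) - 1),
          ∀ v, ¬ Relation.TransGen (fun x y => D.Adj x y ∧ col x = col y) v v) →
        ContainsSubdivision F D) :
    ∃ c : ℕ, 0 < c ∧ ∀ n : ℕ, 0 < n → ∀ (V : Type) [Fintype V] (D : Digraph V),
      (∀ v, ¬ D.Adj v v) →
      (¬ ∃ col : V → Fin (c * n ^ 2 - 1),
          ∀ v, ¬ Relation.TransGen (fun a b => D.Adj a b ∧ col a = col b) v v) →
      ∃ f : Fin n → V, Function.Injective f ∧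
        ∃ (L : Fin n → Fin n → ℕ) (p : Fin n → Fin n → ℕ → V),
          (∀ i j, i ≠ j →
              p i j 0 = f i ∧ p i j (L i j + 1) = f j ∧
              (∀ t, t ≤ L i j → D.Adj (p i j t) (p i j (t + 1))) ∧
              (∀ s t, 1 ≤ s → s ≤ L i j → 1 ≤ t → t ≤ L i j → p i j s = p i j t → s = t) ∧
              (∀ t k, 1 ≤ t → t ≤ L i j → p i j t ≠ f k)) ∧
          ∀ i j k l, i ≠ j → k ≠ l → (i ≠ k ∨ j ≠ l) →
            ∀ s t, 1 ≤ s → s ≤ L i j → 1 ≤ t → t ≤ L k l → p i j s ≠ p k l t := by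
  obtain ⟨c, hc, h⟩ := h
  refine ⟨c, hc, fun n hn V _ D hD hcol => ?_⟩
  refine h n hn (Kn n) (fun i hi => hi rfl) V D hD ?_
  rw [card_kn]
  exact hcol

end Pool.Agent.OSX82
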