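import Pool.Agent.OSX82.Plain
import Pool.Agent.OSX82.PlainKn

/-! The linear bound for every digraph `F`, and the quadratic bound for the complete digraph. -/

open Classical

namespace Pool.Agent.OSX82

open Pool.Agent.Mader Pool.Agent.MDP

universe u

theorem plainH (V : Type u) : PlainH V :=
  fun _ _ _ _ _ _ hirr hN hTX hd hT hk => one_sided_plain hirr hN hTX hd hT hk

/-- Main theorem: the dichromatic number `c * (n + m)` forces a subdivision of every digraph with
`n` vertices and `m` arcs. -/
theorem linear_main : ∃ c : ℕ, 0 < c ∧ ∀ n : ℕ, 0 < n → ∀ F : Digraph (Fin n),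
    (∀ i, ¬ F.Adj i i) → ∀ (V : Type u) [Fintype V] (D : Digraph V), (∀ v, ¬ D.Adj v v) →
      (¬ ∃ col : V → Fin (c * (n + Nat.card {e : Fin n × Fin n // F.Adj e.1 e.2}) - 1),
        ∀ v, ¬ Relation.TransGen (fun x y => D.Adj x y ∧ col x = col y) v v) →
      ContainsSubdivision F D :=
  linear_of_plain plainH

end Pool.Agent.OSX82
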