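import Pool.Agent.OSX82.Final

/-! Colourings with forbidden colours: the factor `log |V|`. -/

open Classical

namespace Pool.Agent.OSX82

open Pool.Agent.Mader Pool.Agent.MDP
open Pool.Agent.OrdThm (LCol)

universe u

variable {V : Type u}

/-- Greedy with weights: with the palette `P`, if the sum over `v ∈ U` of
`(1 - 1 / k) ^ |P \ F v|` is less than `1`, then `U` has a colouring from `P` which avoids `F`.

Proof. Induction on `P`. Take a colour `b ∈ P`; of the `k` acyclic classes one, `S`, has at least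
the `k`-th part of the weight of the vertices of `U` which may get `b`. Give `b` to `S`. -/
theorem weighted {a : V → V → Prop} {W : Finset V} {k : ℕ} (hk : 1 ≤ k) (h : Col a W k)
    (F : V → Finset ℕ) (P : Finset ℕ) :
    ∀ U : Finset V, U ⊆ W → ∑ v ∈ U, (1 - 1 / (k : ℝ)) ^ (P \ F v).card < 1 →
      ∃ c : V → ℕ, (∀ v ∈ U, c v ∈ P ∧ c v ∉ F v) ∧
        ∀ i, Acyc a (U.filter fun v => c v = i) := by
  obtain ⟨col, hc1, hc2⟩ := h
  induction P using Finset.induction_on with
  | empty =>
    intro U _ hU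
    have h1 : U = ∅ := by
      by_contra hne
      have h2 : ∑ v ∈ U, (1 - 1 / (k : ℝ)) ^ ((∅ : Finset ℕ) \ F v).card = (U.card : ℝ) := by
        simp
      rw [h2] at hU
      have h3 : 1 ≤ U.card := Finset.card_pos.2 (Finset.nonempty_iff_ne_empty.2 hne)
      have h4 : (1 : ℝ) ≤ U.card := by exact_mod_cast h3
      linarith
    subst h1
    refine ⟨fun _ => 0, by simp, fun i Z hZ hne => ?_⟩
    obtain ⟨z, hz⟩ := hne
    exact absurd (Finset.mem_filter.1 (hZ hz)).1 (Finset.notMem_empty z)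
  | insert b P hb ih =>
    intro U hUW hU
    set x : ℝ := 1 - 1 / (k : ℝ) with hx
    have hk0 : (0 : ℝ) < k := by exact_mod_cast hk
    have hk1 : (1 : ℝ) ≤ k := by exact_mod_cast hk
    have hx0 : 0 ≤ x := by
      rw [hx, sub_nonneg, div_le_one hk0]
      exact hk1
    set w : V → ℝ := fun v => x ^ (P \ F v).card with hw
    have hw0 : ∀ v, 0 ≤ w v := fun v => pow_nonneg hx0 _
    set Ub : Finset V := U.filter fun v => b ∉ F v with hUb
    -- the weights
    have e1 : ∀ v, b ∉ F v → x ^ ((insert b P) \ F v).card = x * w v := by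
      intro v hv
      rw [hw]
      change _ = x * x ^ (P \ F v).card
      rw [Finset.insert_sdiff_of_notMem _ hv, Finset.card_insert_of_notMem, pow_succ, mul_comm]
      intro hc
      exact hb (Finset.mem_sdiff.1 hc).1
    have e2 : ∀ v, b ∈ F v → x ^ ((insert b P) \ F v).card = w v := by
      intro v hv
      rw [Finset.insert_sdiff_of_mem _ hv]
    have e3 : ∑ v ∈ U, x ^ ((insert b P) \ F v).card =
        x * ∑ v ∈ Ub, w v + ∑ v ∈ U.filter (fun v => ¬ b ∉ F v), w v := by
      rw [← Finset.sum_filter_add_sum_filter_not U (fun v => b ∉ F v), Finset.mul_sum]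
      congr 1
      · refine Finset.sum_congr rfl fun v hv => e1 v (Finset.mem_filter.1 hv).2
      · refine Finset.sum_congr rfl fun v hv => e2 v (not_not.1 (Finset.mem_filter.1 hv).2)
    have e4 : ∑ v ∈ U, w v =
        ∑ v ∈ Ub, w v + ∑ v ∈ U.filter (fun v => ¬ b ∉ F v), w v :=
      (Finset.sum_filter_add_sum_filter_not U (fun v => b ∉ F v) w).symm
    -- the best class
    obtain ⟨i, hi⟩ : ∃ i : ℕ, ∑ v ∈ Ub, w v ≤
        k * ∑ v ∈ Ub.filter (fun v => col v = i), w v := by
      have hcard : (Finset.range k).card = k := Finset.card_range k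
      by_contra hcon
      push Not at hcon
      have h1 : ∑ i ∈ Finset.range k, ∑ v ∈ Ub.filter (fun v => col v = i), w v =
          ∑ v ∈ Ub, w v := by
        apply Finset.sum_fiberwise_of_maps_to
        intro v hv
        exact Finset.mem_range.2 (hc1 v (hUW (Finset.mem_filter.1 hv).1))
      have h2 : ∑ i ∈ Finset.range k, (k : ℝ) * ∑ v ∈ Ub.filter (fun v => col v = i), w v <
          ∑ i ∈ Finset.range k, ∑ v ∈ Ub, w v := by
        apply Finset.sum_lt_sum_of_nonempty
        · exact Finset.nonempty_range_iff.2 (by omega)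
        · intro i _
          exact hcon i
      rw [← Finset.mul_sum, h1, Finset.sum_const, hcard, nsmul_eq_mul] at h2
      exact lt_irrefl _ h2
    set S : Finset V := Ub.filter (fun v => col v = i) with hS
    have hSU : S ⊆ U := (Finset.filter_subset _ _).trans (Finset.filter_subset _ _)
    have e5 : ∑ v ∈ U \ S, w v + ∑ v ∈ S, w v = ∑ v ∈ U, w v := Finset.sum_sdiff hSU
    have e6 : ∑ v ∈ U \ S, w v < 1 := by
      refine lt_of_le_of_lt ?_ hU
      rw [e3]
      have h1 : (∑ v ∈ Ub, w v) / k ≤ ∑ v ∈ S, w v := by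
        rw [div_le_iff₀ hk0, mul_comm]
        exact hi
      have h2 : x * ∑ v ∈ Ub, w v = ∑ v ∈ Ub, w v - (∑ v ∈ Ub, w v) / k := by
        rw [hx]
        ring
      rw [h2]
      linarith
    obtain ⟨c, hc, hc'⟩ := ih (U \ S) (Finset.sdiff_subset.trans hUW) e6
    refine ⟨fun v => if v ∈ S then b else c v, ?_, ?_⟩
    · intro v hv
      by_cases hvS : v ∈ S
      · simp only [hvS, if_true]
        exact ⟨Finset.mem_insert_self _ _,
          (Finset.mem_filter.1 (Finset.mem_filter.1 hvS).1).2⟩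
      · simp only [hvS, if_false]
        have h1 := hc v (Finset.mem_sdiff.2 ⟨hv, hvS⟩)
        exact ⟨Finset.mem_insert_of_mem h1.1, h1.2⟩
    · intro j Z hZ hne
      by_cases hj : j = b
      · refine hc2 i Z ?_ hne
        intro v hv
        obtain ⟨hvU, hvj⟩ := Finset.mem_filter.1 (hZ hv)
        have hvS : v ∈ S := by
          by_contra hvS
          simp only [hvS, if_false] at hvj
          have h1 := hc v (Finset.mem_sdiff.2 ⟨hvU, hvS⟩)
          rw [hvj, hj] at h1
          exact hb h1.1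
        exact Finset.mem_filter.2 ⟨hUW hvU, (Finset.mem_filter.1 hvS).2⟩
      · refine hc' j Z ?_ hne
        intro v hv
        obtain ⟨hvU, hvj⟩ := Finset.mem_filter.1 (hZ hv)
        have hvS : v ∉ S := by
          intro hvS
          simp only [hvS, if_true] at hvj
          exact hj hvj.symm
        simp only [hvS, if_false] at hvj
        exact Finset.mem_filter.2 ⟨Finset.mem_sdiff.2 ⟨hvU, hvS⟩, hvj⟩

/-- From ordinary colourings to colourings with forbidden colours, with the factor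
`log |W|`. -/
theorem lcol_log {a : V → V → Prop} {W : Finset V} {k L : ℕ} (hk : 1 ≤ k) (m : ℕ)
    (h : Col a W k) (hL : W.card < 2 ^ L) : LCol a m W (m + k * L) := by
  intro P F hP hF
  have hk0 : (0 : ℝ) < k := by exact_mod_cast hk
  have hk1 : (1 : ℝ) ≤ k := by exact_mod_cast hk
  have hx0 : 0 ≤ 1 - 1 / (k : ℝ) := by
    rw [sub_nonneg, div_le_one hk0]
    exact hk1
  have hx1 : 1 - 1 / (k : ℝ) ≤ 1 := by
    have : 0 ≤ 1 / (k : ℝ) := by positivity
    linarith
  have hhalf : (1 - 1 / (k : ℝ)) ^ k ≤ 1 / 2 := by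
    have h1 : 1 - 1 / (k : ℝ) ≤ Real.exp (-(1 / (k : ℝ))) := by
      have := Real.add_one_le_exp (-(1 / (k : ℝ)))
      linarith
    have h2 : (1 - 1 / (k : ℝ)) ^ k ≤ Real.exp (-(1 / (k : ℝ))) ^ k :=
      pow_le_pow_left₀ hx0 h1 k
    have h3 : Real.exp (-(1 / (k : ℝ))) ^ k = Real.exp (-1) := by
      rw [← Real.exp_nat_mul]
      congr 1
      field_simp
    have h4 : Real.exp (-1) ≤ 1 / 2 := by
      rw [Real.exp_neg, one_div]
      apply inv_anti₀ (by norm_num)
      have := Real.add_one_le_exp (1 : ℝ)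
      linarith
    rw [h3] at h2
    exact h2.trans h4
  obtain ⟨c, hc, hc'⟩ := weighted hk h F P W (Finset.Subset.refl _) (by
    have h1 : ∀ v ∈ W, (1 - 1 / (k : ℝ)) ^ (P \ F v).card ≤ (1 / 2 : ℝ) ^ L := by
      intro v hv
      have h2 : k * L ≤ (P \ F v).card := by
        have h3 := Finset.le_card_sdiff (F v) P
        have h4 := hF v hv
        omega
      calc (1 - 1 / (k : ℝ)) ^ (P \ F v).card ≤ (1 - 1 / (k : ℝ)) ^ (k * L) :=
            pow_le_pow_of_le_one hx0 hx1 h2
        _ = ((1 - 1 / (k : ℝ)) ^ k) ^ L := pow_mul _ _ _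
        _ ≤ (1 / 2 : ℝ) ^ L := pow_le_pow_left₀ (pow_nonneg hx0 _) hhalf L
    have h2 : ∑ v ∈ W, (1 - 1 / (k : ℝ)) ^ (P \ F v).card ≤ W.card * (1 / 2 : ℝ) ^ L := by
      refine (Finset.sum_le_sum h1).trans ?_
      rw [Finset.sum_const, nsmul_eq_mul]
    refine lt_of_le_of_lt h2 ?_
    have h3 : (W.card : ℝ) < 2 ^ L := by exact_mod_cast hL
    rw [one_div, inv_pow, ← div_eq_mul_inv, div_lt_one (by positivity)]
    exact h3)
  exact ⟨c, hc, hc'⟩

/-- The core theorem with the factor `log |V|`. -/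
theorem core_log {a : V → V → Prop} (hirr : ∀ v, ¬ a v v) {N : ℕ} (hN : 1 ≤ N)
    {S : Finset V} {k L : ℕ} (hk : 1 ≤ k) (hL : S.card < 2 ^ L)
    (h : ¬ Col a S (4 * (4 * N + k * L) + 64 * N)) :
    ∃ Y ⊆ S, ¬ Col a Y k ∧ Core a (S \ Y) Y N := by
  obtain ⟨Y, hY, hc, hcore⟩ := core_list hirr hN h
  exact ⟨Y, hY, fun hc' => hc (lcol_log hk _ hc' ((Finset.card_le_card hY).trans_lt hL)), hcore⟩

theorem const_log {n N L : ℕ} (hL : 1 ≤ L) :
    4 * (4 * N + 578 * (n + N) * L) + 64 * N ≤ 10000 * (n + N) * L := by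
  have h1 : N ≤ n + N := by omega
  generalize n + N = s at *
  have h2 : s ≤ s * L := Nat.le_mul_of_pos_right s hL
  have e1 : 578 * s * L = 578 * (s * L) := by ring
  have e2 : 10000 * s * L = 10000 * (s * L) := by ring
  rw [e1, e2]
  omega

/-- Main theorem: `c * (n + m) * min (n + m) (log |V| + 1)` colours. -/
theorem poly_main_four : ∃ c : ℕ, 0 < c ∧ ∀ n : ℕ, 0 < n → ∀ F : Digraph (Fin n),
    (∀ i, ¬ F.Adj i i) → ∀ (V : Type u) [Fintype V] (D : Digraph V), (∀ v, ¬ D.Adj v v) →
      (¬ ∃ col : V → Fin (c * (n + Nat.card {e : Fin n × Fin n // F.Adj e.1 e.2}) *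
          min (n + Nat.card {e : Fin n × Fin n // F.Adj e.1 e.2})
            (Nat.log 2 (Fintype.card V) + 1)),
        ∀ v, ¬ Relation.TransGen (fun x y => D.Adj x y ∧ col x = col y) v v) →
      ContainsSubdivision F D := by
  refine ⟨10000, by norm_num, ?_⟩
  intro n hn F hF V _ D hD hcol
  have h0 := not_col_of_cycles D.Adj _ hcol
  obtain ⟨N, hN⟩ : ∃ N, N = Nat.card {e : Fin n × Fin n // F.Adj e.1 e.2} := ⟨_, rfl⟩
  rw [← hN] at h0
  set L : ℕ := Nat.log 2 (Fintype.card V) + 1 with hL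
  have hL1 : 1 ≤ L := by omega
  have hcard : n ≤ Fintype.card V := by
    by_contra hlt
    push Not at hlt
    apply h0
    refine (Col.card hD Finset.univ).mono (Finset.Subset.refl _) ?_
    rw [Finset.card_univ]
    have h5 : 1 ≤ min (n + N) L := le_min (by omega) hL1
    have h6 : 10000 * (n + N) * 1 ≤ 10000 * (n + N) * min (n + N) L :=
      Nat.mul_le_mul_left _ h5
    omega
  refine subdivision_of_core hn hF hD hcard hN fun h1 => ?_
  rcases le_total (n + N) L with h2 | h2
  · obtain ⟨Y, -, hY, hYc⟩ := core_three (a := D.Adj) hD h1 (S := Finset.univ)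
      (k := 578 * (n + N)) (fun hc => h0 (hc.mono (Finset.Subset.refl _) (by
        have h3 : 10000 * (n + N) * (n + N) = 10000 * (n + N) ^ 2 := by ring
        rw [min_eq_left h2, h3]
        exact const_le hn)))
    exact ⟨Y, hY, hYc⟩
  · obtain ⟨Y, -, hY, hYc⟩ := core_log (a := D.Adj) hD h1 (S := Finset.univ)
      (k := 578 * (n + N)) (L := L) (by omega) (by
        rw [Finset.card_univ, hL]
        exact Nat.lt_pow_succ_log_self (by norm_num) _)
      (fun hc => h0 (hc.mono (Finset.Subset.refl _) (by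
        rw [min_eq_right h2]
        exact const_log hL1)))
    exact ⟨Y, hY, hYc⟩

end Pool.Agent.OSX82
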