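import Pool.Agent.OrdThm.OSJ

/-! The plain one-sided theorem (helper39's proof): all vertices of `T` are attached; if every
subset of `T` all of whose vertices are attached outside it has a colouring with `k` colours, then
`T` has a colouring with `13 * N + 3 * k` colours. -/

open Classical

namespace Pool.Agent.OSX82

open Pool.Agent.OrdThm
open Pool.Agent.Mader (Acyc)

universe u

variable {V : Type u} {a : V → V → Prop} {Z X Ξ : Finset V} {N : ℕ}

/-- The vertices of `X \ Y` which are attached in `Y`. -/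
noncomputable def Up (a : V → V → Prop) (Z : Finset V) (N : ℕ) (X Y : Finset V) : Finset V :=
  (X \ Y).filter (fun v => Att a Z N (insert v Y) v)

theorem mem_up {Y : Finset V} {v : V} :
    v ∈ Up a Z N X Y ↔ v ∈ X ∧ v ∉ Y ∧ Att a Z N (insert v Y) v := by
  unfold Up
  rw [Finset.mem_filter, Finset.mem_sdiff, and_assoc]

/-- `P` is a joint extension of `Y`. -/
def JExt (a : V → V → Prop) (Z : Finset V) (N : ℕ) (Y P : Finset V) : Prop :=
  P.Nonempty ∧ Disjoint Y P ∧ ∀ v ∈ P, Att a Z N (Y ∪ P) v

/-- A node does not lie in a small region of a larger set. -/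
theorem node_notin {Y Y' R : Finset V} (hY : Y ⊆ Y') (hd : Disjoint Y' Z) (hR : R ⊆ Y')
    (hc : (nb a (Y' ∪ Z) R).card < N) {v : V} (hv : v ∈ Y) (hatt : Att a Z N Y v) : v ∉ R := by
  intro hvR
  have := hatt.mono hY hv hd R hR hvR
  omega

/-- The peeling lemma: a set without joint extension can be coloured after `Y` with one set of
less than `N` forbidden colours at a time. -/
theorem peel {Y E : Finset V} (hE : ∀ v ∈ E, v ∈ Y ∧ Att a Z N Y v)
    {k : ℕ} {P : Finset ℕ} (hP : k + N ≤ P.card) {C : Finset V} (hC : C ⊆ E) (c : V → ℕ)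
    : ∀ n : ℕ, ∀ B : Finset V, B.card = n → Disjoint Y B →
    Disjoint (Y ∪ B) Z → (∀ Q ⊆ B, ¬ JExt a Z N Y Q) → LCol a 0 B k →
    ∃ c' : V → ℕ, (∀ v, v ∉ B → c' v = c v) ∧ (∀ v ∈ B, c' v ∈ P) ∧
      ∀ S ⊆ C ∪ B, (∃ s ∈ S, s ∈ B) → (∀ u ∈ S, ∀ v ∈ S, c' u = c' v) →
        ∃ u ∈ S, ∀ v ∈ S, ¬ a u v := by
  intro n
  induction n using Nat.strong_induction_on with
  | _ n ih =>
    intro B hn hYB hdZ hno hcol
    rcases B.eq_empty_or_nonempty with hB | hB
    · subst hB
      exact ⟨c, fun _ _ => rfl, fun v hv => absurd hv (Finset.notMem_empty v),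
        fun S _ ⟨s, _, hs⟩ _ => absurd hs (Finset.notMem_empty s)⟩
    · have h1 := hno B (Finset.Subset.refl _)
      have h2 : ∃ v ∈ B, ¬ Att a Z N (Y ∪ B) v := by
        by_contra hcon
        push Not at hcon
        exact h1 ⟨hB, hYB, hcon⟩
      obtain ⟨v, hvB, hv⟩ := h2
      unfold Att at hv
      push Not at hv
      obtain ⟨R, hR, hvR, hRc⟩ := hv
      have hER : ∀ u ∈ E, u ∉ R := fun u hu =>
        node_notin Finset.subset_union_left hdZ hR hRc (hE u hu).1 (hE u hu).2
      set I : Finset V := R ∩ B with hI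
      set B' : Finset V := B \ I with hB'
      have hvI : v ∈ I := Finset.mem_inter.2 ⟨hvR, hvB⟩
      have hB'B : B' ⊆ B := Finset.sdiff_subset
      have hlt : B'.card < n := by
        rw [← hn]
        apply Finset.card_lt_card
        rw [Finset.ssubset_iff_of_subset hB'B]
        exact ⟨v, hvB, fun h => (Finset.mem_sdiff.1 h).2 hvI⟩
      obtain ⟨c1, hc1, hc1P, hc1S⟩ := ih _ hlt B' rfl (hYB.mono_right hB'B)
        (hdZ.mono_left (Finset.union_subset_union_right hB'B))
        (fun Q hQ => hno Q (hQ.trans hB'B)) (hcol.mono (le_refl _) hB'B (le_refl _))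
      set Fb : Finset ℕ := ((nb a (Y ∪ B ∪ Z) R) ∩ (C ∪ B')).image c1 with hFb
      have hFbc : Fb.card < N := by
        refine lt_of_le_of_lt (Finset.card_image_le.trans (Finset.card_le_card ?_)) hRc
        exact Finset.inter_subset_left
      obtain ⟨c2, hc2, hc2A⟩ := (hcol.mono (m' := 0) (X' := I) (le_refl _)
        Finset.inter_subset_right (le_refl k)) (P \ Fb) (fun _ => ∅) (by
          have := Finset.le_card_sdiff Fb P
          omega) (by simp)
      set c' : V → ℕ := fun v => if v ∈ I then c2 v else c1 v with hc'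
      have e1 : ∀ v ∈ I, c' v = c2 v := fun v hv => if_pos hv
      have e2 : ∀ v, v ∉ I → c' v = c1 v := fun v hv => if_neg hv
      have hCI : ∀ u ∈ C, u ∉ I := fun u hu h => hER u (hC hu) (Finset.mem_inter.1 h).1
      refine ⟨c', ?_, ?_, ?_⟩
      · intro w hw
        have hwI : w ∉ I := fun h => hw (Finset.mem_inter.1 h).2
        rw [e2 w hwI]
        exact hc1 w (fun h => hw (hB'B h))
      · intro w hw
        by_cases hwI : w ∈ I
        · rw [e1 w hwI]
          exact (Finset.mem_sdiff.1 (hc2 w hwI).1).1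
        · rw [e2 w hwI]
          exact hc1P w (Finset.mem_sdiff.2 ⟨hw, hwI⟩)
      · intro S hS hSB hSc
        by_cases hSI : ∃ s ∈ S, s ∈ I
        · obtain ⟨s, hs, hsI⟩ := hSI
          obtain ⟨z, hz, hz'⟩ := hc2A (c' s) (S ∩ I) (by
            intro y hy
            rw [Finset.mem_inter] at hy
            rw [Finset.mem_filter]
            refine ⟨hy.2, ?_⟩
            rw [← e1 y hy.2]
            exact hSc y hy.1 s hs) ⟨s, Finset.mem_inter.2 ⟨hs, hsI⟩⟩
          obtain ⟨hzS, hzI⟩ := Finset.mem_inter.1 hz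
          refine ⟨z, hzS, fun y hy hzy => ?_⟩
          by_cases hyI : y ∈ I
          · exact hz' y (Finset.mem_inter.2 ⟨hy, hyI⟩) hzy
          · have hyCB : y ∈ C ∪ B' := by
              rcases Finset.mem_union.1 (hS hy) with h3 | h3
              · exact Finset.mem_union_left _ h3
              · exact Finset.mem_union_right _ (Finset.mem_sdiff.2 ⟨h3, hyI⟩)
            have hyR : y ∉ R := by
              rcases Finset.mem_union.1 hyCB with h3 | h3
              · exact hER y (hC h3)
              · intro h4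
                exact hyI (Finset.mem_inter.2 ⟨h4, hB'B h3⟩)
            have hynb : y ∈ nb a (Y ∪ B ∪ Z) R := by
              refine mem_nb.2 ⟨Finset.mem_union_left _ ?_, hyR, z, (Finset.mem_inter.1 hzI).1,
                hzy⟩
              rcases Finset.mem_union.1 hyCB with h3 | h3
              · exact Finset.mem_union_left _ (hE y (hC h3)).1
              · exact Finset.mem_union_right _ (hB'B h3)
            have h3 : c1 y ∈ Fb := Finset.mem_image_of_mem _
              (Finset.mem_inter.2 ⟨hynb, hyCB⟩)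
            have h4 : c' y = c1 y := e2 y hyI
            have h5 : c' z = c2 z := e1 z hzI
            have h6 := hSc y hy z hzS
            rw [h4, h5] at h6
            rw [h6] at h3
            exact (Finset.mem_sdiff.1 (hc2 z hzI).1).2 h3
        · push Not at hSI
          refine hc1S S ?_ ?_ ?_
          · intro y hy
            rcases Finset.mem_union.1 (hS hy) with h3 | h3
            · exact Finset.mem_union_left _ h3
            · exact Finset.mem_union_right _ (Finset.mem_sdiff.2 ⟨h3, hSI y hy⟩)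
          · obtain ⟨s, hs, hsB⟩ := hSB
            exact ⟨s, hs, Finset.mem_sdiff.2 ⟨hsB, hSI s hs⟩⟩
          · intro u hu w hw
            rw [← e2 u (hSI u hu), ← e2 w (hSI w hw)]
            exact hSc u hu w hw

theorem acyc_congr {A : Finset V} {c c' : V → ℕ} (h : ∀ v ∈ A, c' v = c v)
    (hA : ∀ i, Acyc a (A.filter (fun v => c v = i))) (i : ℕ) :
    Acyc a (A.filter (fun v => c' v = i)) := by
  intro S hS hne
  refine hA i S (fun v hv => ?_) hne
  have h1 := Finset.mem_filter.1 (hS hv)
  exact Finset.mem_filter.2 ⟨h1.1, (h v h1.1).symm.trans h1.2⟩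

/-- Adding a set to a colour class. -/
theorem acyc_add {A B : Finset V} {c c' : V → ℕ} (h : ∀ v ∈ A, c' v = c v)
    (hA : ∀ i, Acyc a (A.filter (fun v => c v = i)))
    (hB : ∀ S ⊆ A ∪ B, (∃ s ∈ S, s ∈ B) → (∀ u ∈ S, ∀ v ∈ S, c' u = c' v) →
      ∃ u ∈ S, ∀ v ∈ S, ¬ a u v) (i : ℕ) :
    Acyc a ((A ∪ B).filter (fun v => c' v = i)) := by
  intro S hS hne
  by_cases hSB : ∃ s ∈ S, s ∈ B
  · refine hB S (fun v hv => (Finset.mem_filter.1 (hS hv)).1) hSB fun u hu v hv => ?_
    rw [(Finset.mem_filter.1 (hS hu)).2, (Finset.mem_filter.1 (hS hv)).2]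
  · push Not at hSB
    refine acyc_congr h hA i S (fun v hv => ?_) hne
    have h1 := Finset.mem_filter.1 (hS hv)
    refine Finset.mem_filter.2 ⟨?_, h1.2⟩
    rcases Finset.mem_union.1 h1.1 with h2 | h2
    · exact h2
    · exact absurd h2 (hSB v hv)

/-- Two sets with disjoint palettes. -/
theorem acyc_union {A B : Finset V} {P Q : Finset ℕ} {c : V → ℕ} (hP : ∀ v ∈ A, c v ∈ P)
    (hQ : ∀ v ∈ B, c v ∈ Q) (hPQ : Disjoint P Q)
    (hA : ∀ i, Acyc a (A.filter (fun v => c v = i)))
    (hB : ∀ i, Acyc a (B.filter (fun v => c v = i))) :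
    (∀ v ∈ A ∪ B, c v ∈ P ∪ Q) ∧ ∀ i, Acyc a ((A ∪ B).filter (fun v => c v = i)) := by
  constructor
  · intro v hv
    rcases Finset.mem_union.1 hv with h | h
    · exact Finset.mem_union_left _ (hP v h)
    · exact Finset.mem_union_right _ (hQ v h)
  · intro i S hS hne
    by_cases hi : i ∈ P
    · refine hA i S (fun v hv => ?_) hne
      obtain ⟨h1, h2⟩ := Finset.mem_filter.1 (hS hv)
      refine Finset.mem_filter.2 ⟨?_, h2⟩
      rcases Finset.mem_union.1 h1 with h3 | h3
      · exact h3
      · have h4 := hQ v h3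
        rw [h2] at h4
        exact absurd h4 (Finset.disjoint_left.1 hPQ hi)
    · refine hB i S (fun v hv => ?_) hne
      obtain ⟨h1, h2⟩ := Finset.mem_filter.1 (hS hv)
      refine Finset.mem_filter.2 ⟨?_, h2⟩
      rcases Finset.mem_union.1 h1 with h3 | h3
      · have h4 := hP v h3
        rw [h2] at h4
        exact absurd h4 hi
      · exact h3

/-- A state of the construction: `Y` is the set reached, `A` and `B` are the coloured parts of
the ears, `L` and `M` the layers of either parity, the last layer is in `M` and was added to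
`E`. -/
structure St (a : V → V → Prop) (Z X Ξ : Finset V) (N k : ℕ) (PA PB QL QM : Finset ℕ)
    (Y E A B L M : Finset V) (c : V → ℕ) : Prop where
  hΞE : Ξ ⊆ E
  hEY : E ⊆ Y
  hYX : Y ⊆ X
  nodeY : ∀ v ∈ Y, v ∉ Ξ → Att a Z N Y v
  nodeE : ∀ v ∈ E, v ∉ Ξ → Att a Z N E v
  cover : ∀ v ∈ Y, v ∉ Ξ → v ∈ A ∨ v ∈ B ∨ v ∈ L ∨ v ∈ M
  hA : ∀ v ∈ A, v ∈ Y ∧ v ∉ Ξ ∧ c v ∈ PA
  hB : ∀ v ∈ B, v ∈ Y ∧ v ∉ Ξ ∧ c v ∈ PB
  hL : ∀ v ∈ L, v ∈ E ∧ v ∉ Ξ ∧ c v ∈ QL
  hM : ∀ v ∈ M, v ∈ Y ∧ v ∉ Ξ ∧ c v ∈ QM
  aA : ∀ i, Acyc a (A.filter (fun v => c v = i))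
  aB : ∀ i, Acyc a (B.filter (fun v => c v = i))
  aL : ∀ i, Acyc a (L.filter (fun v => c v = i))
  aM : ∀ i, Acyc a (M.filter (fun v => c v = i))
  hex : L = ∅ ∨ ∀ P, P ⊆ X → Disjoint Y P → LCol a 0 P k → ¬ JExt a Z N E P

/-- The construction runs until `Y = X`. -/
theorem run {T : Finset V} (hirr : ∀ v, ¬ a v v) (hN : 0 < N) (hd : Disjoint X Z)
    (hXT : X \ Ξ ⊆ T) (hbuilt : Built a Z N Ξ X) {k : ℕ}
    (hk : ∀ W ⊆ T, (∀ w ∈ W, Att a Z N (insert w (X \ W)) w) → LCol a 0 W k)
    {PA PB : Finset ℕ} (hPA : k + N ≤ PA.card) (hPB : N ≤ PB.card) :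
    ∀ n : ℕ, ∀ (QL QM : Finset ℕ) (Y E A B L M : Finset V) (c : V → ℕ), (X \ Y).card = n →
      k + N ≤ QL.card → k + N ≤ QM.card →
      St a Z X Ξ N k PA PB QL QM Y E A B L M c →
      ∃ (E' A' B' L' M' : Finset V) (c' : V → ℕ),
        St a Z X Ξ N k PA PB QL QM X E' A' B' L' M' c' ∨
        St a Z X Ξ N k PA PB QM QL X E' A' B' L' M' c' := by
  intro n
  induction n using Nat.strong_induction_on with
  | _ n ih =>
    intro QL QM Y E A B L M c hn hQL hQM st
    have hΞY : Ξ ⊆ Y := st.hΞE.trans st.hEY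
    have hdYZ : Disjoint Y Z := hd.mono_left st.hYX
    by_cases hear : ∃ P ⊆ X, JExt a Z N Y P ∧ Disjoint P (Up a Z N X Y) ∧ LCol a 0 P k
    · -- an ear
      obtain ⟨P0, hP0X, hP0⟩ := hear
      have hfin : (X.powerset.filter (fun P => JExt a Z N Y P ∧ Disjoint P (Up a Z N X Y) ∧
          LCol a 0 P k)).Nonempty :=
        ⟨P0, Finset.mem_filter.2 ⟨Finset.mem_powerset.2 hP0X, hP0⟩⟩
      obtain ⟨P, hPm, hmin⟩ := Finset.exists_min_image _ Finset.card hfin
      rw [Finset.mem_filter, Finset.mem_powerset] at hPm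
      obtain ⟨hPX, hPJ, hPU, hPk⟩ := hPm
      obtain ⟨p, hp⟩ := hPJ.1
      have hYP : Disjoint Y P := hPJ.2.1
      have hpY : p ∉ Y := fun h => Finset.disjoint_left.1 hYP h hp
      set B0 : Finset V := P.erase p with hB0
      have hB0P : B0 ⊆ P := Finset.erase_subset _ _
      have hno : ∀ Q ⊆ B0, ¬ JExt a Z N Y Q := by
        intro Q hQ hJ
        have h1 := hmin Q (Finset.mem_filter.2 ⟨Finset.mem_powerset.2
          ((hQ.trans hB0P).trans hPX), hJ, hPU.mono_left (hQ.trans hB0P),
          hPk.mono (le_refl _) (hQ.trans hB0P) (le_refl _)⟩)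
        have h2 := Finset.card_le_card hQ
        have h3 : B0.card < P.card := Finset.card_erase_lt_of_mem hp
        omega
      obtain ⟨c1, hc1, hc1P, hc1S⟩ := peel (a := a) (Z := Z) (N := N) (Y := Y) (E := Y \ Ξ)
        (fun v hv => ⟨(Finset.mem_sdiff.1 hv).1, st.nodeY v (Finset.mem_sdiff.1 hv).1
          (Finset.mem_sdiff.1 hv).2⟩) hPA (C := A)
        (fun v hv => Finset.mem_sdiff.2 ⟨(st.hA v hv).1, (st.hA v hv).2.1⟩) c _ B0 rfl
        (hYP.mono_right hB0P)
        (hd.mono_left (Finset.union_subset st.hYX (hB0P.trans hPX))) hno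
        (hPk.mono (le_refl _) hB0P (le_refl _))
      -- the colour of `p`
      have hpX : p ∈ X := hPX hp
      have hpna : ¬ Att a Z N (insert p Y) p := fun h =>
        Finset.disjoint_left.1 hPU hp (mem_up.2 ⟨hpX, hpY, h⟩)
      unfold Att at hpna
      push Not at hpna
      obtain ⟨R, hR, hpR, hRc⟩ := hpna
      have hdpY : Disjoint (insert p Y) Z := hd.mono_left (Finset.insert_subset hpX st.hYX)
      set Fb : Finset ℕ := ((Y \ Ξ).filter (fun y => a p y)).image c1 with hFb
      have hFbc : Fb.card < N := by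
        refine lt_of_le_of_lt (Finset.card_image_le.trans (Finset.card_le_card ?_)) hRc
        intro y hy
        obtain ⟨hy1, hy2⟩ := Finset.mem_filter.1 hy
        obtain ⟨hyY, hyΞ⟩ := Finset.mem_sdiff.1 hy1
        exact mem_nb.2 ⟨Finset.mem_union_left _ (Finset.mem_insert_of_mem hyY),
          node_notin (Finset.subset_insert _ _) hdpY hR hRc hyY (st.nodeY y hyY hyΞ), p, hpR,
          hy2⟩
      obtain ⟨q, hq, hqF⟩ : ∃ q ∈ PB, q ∉ Fb :=
        Finset.exists_mem_notMem_of_card_lt_card (hFbc.trans_le hPB)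
      set c2 : V → ℕ := fun v => if v = p then q else c1 v with hc2
      have e1 : c2 p = q := if_pos rfl
      have e2 : ∀ v, v ≠ p → c2 v = c1 v := fun v hv => if_neg hv
      have e3 : ∀ v ∈ Y, c2 v = c v := by
        intro v hv
        have hvp : v ≠ p := fun h => hpY (h ▸ hv)
        rw [e2 v hvp]
        exact hc1 v (fun h => Finset.disjoint_left.1 hYP hv (hB0P h))
      have hpP : ∀ v ∈ P, v ≠ p → v ∈ B0 := fun v hv hvp => Finset.mem_erase.2 ⟨hvp, hv⟩
      have hlt : (X \ (Y ∪ P)).card < n := by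
        rw [← hn]
        apply Finset.card_lt_card
        rw [Finset.ssubset_iff_of_subset (Finset.sdiff_subset_sdiff (Finset.Subset.refl _)
          Finset.subset_union_left)]
        exact ⟨p, Finset.mem_sdiff.2 ⟨hpX, hpY⟩, fun h =>
          (Finset.mem_sdiff.1 h).2 (Finset.mem_union_right _ hp)⟩
      have hYPX : Y ∪ P ⊆ X := Finset.union_subset st.hYX hPX
      have hPΞ : ∀ v ∈ P, v ∉ Ξ := fun v hv h => Finset.disjoint_left.1 hYP (hΞY h) hv
      refine ih _ hlt QL QM (Y ∪ P) E (A ∪ B0) (B ∪ {p}) L M c2 rfl hQL hQM ?_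
      refine
        { hΞE := st.hΞE
          hEY := st.hEY.trans Finset.subset_union_left
          hYX := hYPX
          nodeY := ?_
          nodeE := st.nodeE
          cover := ?_
          hA := ?_
          hB := ?_
          hL := ?_
          hM := ?_
          aA := ?_
          aB := ?_
          aL := ?_
          aM := ?_
          hex := ?_ }
      · intro v hv hvΞ
        rcases Finset.mem_union.1 hv with h | h
        · exact (st.nodeY v h hvΞ).mono Finset.subset_union_left h (hd.mono_left hYPX)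
        · exact hPJ.2.2 v h
      · intro v hv hvΞ
        rcases Finset.mem_union.1 hv with h | h
        · rcases st.cover v h hvΞ with h1 | h1 | h1 | h1
          · exact Or.inl (Finset.mem_union_left _ h1)
          · exact Or.inr (Or.inl (Finset.mem_union_left _ h1))
          · exact Or.inr (Or.inr (Or.inl h1))
          · exact Or.inr (Or.inr (Or.inr h1))
        · by_cases hvp : v = p
          · exact Or.inr (Or.inl (Finset.mem_union_right _ (Finset.mem_singleton.2 hvp)))
          · exact Or.inl (Finset.mem_union_right _ (hpP v h hvp))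
      · intro v hv
        rcases Finset.mem_union.1 hv with h | h
        · refine ⟨Finset.mem_union_left _ (st.hA v h).1, (st.hA v h).2.1, ?_⟩
          rw [e3 v (st.hA v h).1]
          exact (st.hA v h).2.2
        · refine ⟨Finset.mem_union_right _ (hB0P h), hPΞ v (hB0P h), ?_⟩
          rw [e2 v (Finset.mem_erase.1 h).1]
          exact hc1P v h
      · intro v hv
        rcases Finset.mem_union.1 hv with h | h
        · refine ⟨Finset.mem_union_left _ (st.hB v h).1, (st.hB v h).2.1, ?_⟩
          rw [e3 v (st.hB v h).1]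
          exact (st.hB v h).2.2
        · rw [Finset.mem_singleton] at h
          rw [h, e1]
          exact ⟨Finset.mem_union_right _ hp, hPΞ p hp, hq⟩
      · intro v hv
        refine ⟨(st.hL v hv).1, (st.hL v hv).2.1, ?_⟩
        rw [e3 v (st.hEY (st.hL v hv).1)]
        exact (st.hL v hv).2.2
      · intro v hv
        refine ⟨Finset.mem_union_left _ (st.hM v hv).1, (st.hM v hv).2.1, ?_⟩
        rw [e3 v (st.hM v hv).1]
        exact (st.hM v hv).2.2
      · have hc2A : ∀ v ∈ A ∪ B0, c2 v = c1 v := by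
          intro v hv
          apply e2
          intro h
          rcases Finset.mem_union.1 hv with h1 | h1
          · exact hpY (h ▸ (st.hA v h1).1)
          · exact (Finset.mem_erase.1 h1).1 h
        refine acyc_add (fun v hv => e3 v (st.hA v hv).1) st.aA ?_
        intro S hS hSB hSc
        refine hc1S S hS hSB fun u hu v hv => ?_
        rw [← hc2A u (hS hu), ← hc2A v (hS hv)]
        exact hSc u hu v hv
      · refine acyc_add (fun v hv => e3 v (st.hB v hv).1) st.aB ?_
        intro S hS hSB hSc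
        obtain ⟨s, hs, hsp⟩ := hSB
        rw [Finset.mem_singleton] at hsp
        refine ⟨s, hs, fun y hy hsy => ?_⟩
        rw [hsp] at hsy
        rcases Finset.mem_union.1 (hS hy) with h1 | h1
        · have h2 := hSc y hy s hs
          rw [hsp, e1] at h2
          have hyY := (st.hB y h1).1
          rw [e2 y (fun h => hpY (h ▸ hyY))] at h2
          apply hqF
          rw [← h2]
          exact Finset.mem_image_of_mem _ (Finset.mem_filter.2
            ⟨Finset.mem_sdiff.2 ⟨hyY, (st.hB y h1).2.1⟩, hsy⟩)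
        · rw [Finset.mem_singleton] at h1
          rw [h1] at hsy
          exact hirr p hsy
      · exact acyc_congr (fun v hv => e3 v (st.hEY (st.hL v hv).1)) st.aL
      · exact acyc_congr (fun v hv => e3 v (st.hM v hv).1) st.aM
      · rcases st.hex with h | h
        · exact Or.inl h
        · exact Or.inr fun P' hP' hdP' hk' => h P' hP'
            (hdP'.mono_left Finset.subset_union_left) hk'
    · by_cases hYX : Y = X
      · subst hYX
        exact ⟨E, A, B, L, M, c, Or.inl st⟩
      · -- a layer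
        obtain ⟨x, hxX, hxY, hxa⟩ := hbuilt.exists_next hd Y st.hYX hΞY hYX
        set U : Finset V := Up a Z N X Y with hU
        have hxU : x ∈ U := mem_up.2 ⟨hxX, hxY, hxa⟩
        have hUX : U ⊆ X := fun v hv => (mem_up.1 hv).1
        have hYU : Disjoint Y U := by
          rw [Finset.disjoint_left]
          intro v hv hv'
          exact (mem_up.1 hv').2.1 hv
        have hUΞ : ∀ v ∈ U, v ∉ Ξ := fun v hv h => (mem_up.1 hv).2.1 (hΞY h)
        have hUT : U ⊆ T := fun v hv => hXT (Finset.mem_sdiff.2 ⟨hUX hv, hUΞ v hv⟩)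
        have hUk : LCol a 0 U k := by
          apply hk U hUT
          intro w hw
          refine (mem_up.1 hw).2.2.mono ?_ (Finset.mem_insert_self _ _) ?_
          · apply Finset.insert_subset_insert
            intro y hy
            exact Finset.mem_sdiff.2 ⟨st.hYX hy, fun h => (mem_up.1 h).2.1 hy⟩
          · exact hd.mono_left (Finset.insert_subset (hUX hw) Finset.sdiff_subset)
        obtain ⟨c', hc', hc'P, hc'S⟩ : ∃ c' : V → ℕ, (∀ v, v ∉ U → c' v = c v) ∧
            (∀ v ∈ U, c' v ∈ QL) ∧ ∀ S ⊆ L ∪ U, (∃ s ∈ S, s ∈ U) →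
              (∀ u ∈ S, ∀ v ∈ S, c' u = c' v) → ∃ u ∈ S, ∀ v ∈ S, ¬ a u v := by
          rcases st.hex with h | h
          · obtain ⟨c2, hc2, hc2A⟩ := hUk QL (fun _ => ∅) (by omega) (by simp)
            refine ⟨fun v => if v ∈ U then c2 v else c v, fun v hv => if_neg hv, fun v hv => ?_,
              fun S hS hSU hSc => ?_⟩
            · simp only [hv, if_true]
              exact (hc2 v hv).1
            · obtain ⟨s, hs, hsU⟩ := hSU
              have hSU' : S ⊆ U := by
                intro v hv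
                rcases Finset.mem_union.1 (hS hv) with h1 | h1
                · rw [h] at h1
                  exact absurd h1 (Finset.notMem_empty v)
                · exact h1
              refine hc2A (c2 s) S (fun v hv => Finset.mem_filter.2 ⟨hSU' hv, ?_⟩) ⟨s, hs⟩
              have h1 := hSc v hv s hs
              simp only [hSU' hv, hsU, if_true] at h1
              exact h1
          · exact peel (a := a) (Z := Z) (N := N) (Y := E) (E := E \ Ξ)
              (fun v hv => ⟨(Finset.mem_sdiff.1 hv).1, st.nodeE v (Finset.mem_sdiff.1 hv).1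
                (Finset.mem_sdiff.1 hv).2⟩) hQL (C := L)
              (fun v hv => Finset.mem_sdiff.2 ⟨(st.hL v hv).1, (st.hL v hv).2.1⟩) c _ U rfl
              (hYU.mono_left st.hEY)
              (hd.mono_left (Finset.union_subset (st.hEY.trans st.hYX) hUX))
              (fun Q hQ hJ => h Q (hQ.trans hUX) (hYU.mono_right hQ)
                (hUk.mono (le_refl _) hQ (le_refl _)) hJ) hUk
        have e3 : ∀ v ∈ Y, c' v = c v := fun v hv =>
          hc' v (fun h => Finset.disjoint_left.1 hYU hv h)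
        have hlt : (X \ (Y ∪ U)).card < n := by
          rw [← hn]
          apply Finset.card_lt_card
          rw [Finset.ssubset_iff_of_subset (Finset.sdiff_subset_sdiff (Finset.Subset.refl _)
            Finset.subset_union_left)]
          exact ⟨x, Finset.mem_sdiff.2 ⟨hxX, hxY⟩, fun h =>
            (Finset.mem_sdiff.1 h).2 (Finset.mem_union_right _ hxU)⟩
        have hYUX : Y ∪ U ⊆ X := Finset.union_subset st.hYX hUX
        obtain ⟨E1, A1, B1, L1, M1, c1, hst⟩ := ih _ hlt QM QL (Y ∪ U) Y A B M (L ∪ U) c' rfl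
          hQM hQL (by
          refine
            { hΞE := hΞY
              hEY := Finset.subset_union_left
              hYX := hYUX
              nodeY := ?_
              nodeE := st.nodeY
              cover := ?_
              hA := ?_
              hB := ?_
              hL := ?_
              hM := ?_
              aA := acyc_congr (fun v hv => e3 v (st.hA v hv).1) st.aA
              aB := acyc_congr (fun v hv => e3 v (st.hB v hv).1) st.aB
              aL := acyc_congr (fun v hv => e3 v (st.hM v hv).1) st.aM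
              aM := acyc_add (fun v hv => e3 v (st.hEY (st.hL v hv).1)) st.aL hc'S
              hex := ?_ }
          · intro v hv hvΞ
            rcases Finset.mem_union.1 hv with h | h
            · exact (st.nodeY v h hvΞ).mono Finset.subset_union_left h (hd.mono_left hYUX)
            · refine (mem_up.1 h).2.2.mono ?_ (Finset.mem_insert_self _ _)
                (hd.mono_left hYUX)
              exact Finset.insert_subset (Finset.mem_union_right _ h)
                Finset.subset_union_left
          · intro v hv hvΞ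
            rcases Finset.mem_union.1 hv with h | h
            · rcases st.cover v h hvΞ with h1 | h1 | h1 | h1
              · exact Or.inl h1
              · exact Or.inr (Or.inl h1)
              · exact Or.inr (Or.inr (Or.inr (Finset.mem_union_left _ h1)))
              · exact Or.inr (Or.inr (Or.inl h1))
            · exact Or.inr (Or.inr (Or.inr (Finset.mem_union_right _ h)))
          · intro v hv
            refine ⟨Finset.mem_union_left _ (st.hA v hv).1, (st.hA v hv).2.1, ?_⟩
            rw [e3 v (st.hA v hv).1]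
            exact (st.hA v hv).2.2
          · intro v hv
            refine ⟨Finset.mem_union_left _ (st.hB v hv).1, (st.hB v hv).2.1, ?_⟩
            rw [e3 v (st.hB v hv).1]
            exact (st.hB v hv).2.2
          · intro v hv
            refine ⟨(st.hM v hv).1, (st.hM v hv).2.1, ?_⟩
            rw [e3 v (st.hM v hv).1]
            exact (st.hM v hv).2.2
          · intro v hv
            rcases Finset.mem_union.1 hv with h | h
            · have hvY := st.hEY (st.hL v h).1
              refine ⟨Finset.mem_union_left _ hvY, (st.hL v h).2.1, ?_⟩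
              rw [e3 v hvY]
              exact (st.hL v h).2.2
            · exact ⟨Finset.mem_union_right _ h, hUΞ v h, hc'P v h⟩
          · refine Or.inr fun P hPX hdP hPk hJ => hear ⟨P, hPX, hJ, ?_, hPk⟩
            exact (hdP.mono_left Finset.subset_union_right).symm)
        exact ⟨E1, A1, B1, L1, M1, c1, hst.symm⟩

/-- Disjoint subsets of given sizes. -/
theorem split_palette {P : Finset ℕ} {p q : ℕ} (h : p + q ≤ P.card) :
    ∃ A B : Finset ℕ, A ⊆ P ∧ B ⊆ P ∧ Disjoint A B ∧ A.card = p ∧ q ≤ B.card := by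
  obtain ⟨A, hA, hAc⟩ := Finset.exists_subset_card_eq (s := P) (n := p) (by omega)
  refine ⟨A, P \ A, hA, Finset.sdiff_subset, Finset.disjoint_sdiff, hAc, ?_⟩
  have := Finset.le_card_sdiff A P
  omega

/-- The plain one-sided theorem. -/
theorem one_sided_plain {T : Finset V} (hirr : ∀ v, ¬ a v v) (hN : 0 < N) (hTX : T ⊆ X)
    (hd : Disjoint X Z) {k : ℕ} (hT : ∀ v ∈ T, Att a Z N X v)
    (hk : ∀ W ⊆ T, (∀ w ∈ W, Att a Z N (insert w (X \ W)) w) → LCol a 0 W k) :
    LCol a 0 T (13 * N + 3 * k) := by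
  obtain ⟨Ξ, hΞ, hΞT, hno, hB⟩ := order_junk (a := a) (T := T) (X := X) (Z := Z) hN
    (Rich := fun K => ¬ LCol a 0 K (5 * N))
    (fun K K' hKK' hK h => hK (h.mono (le_refl _) hKK' (le_refl _)))
    (fun K hK => by
      have := card_of_not_LCol hirr hK
      omega) hT
  have hcol : LCol a 0 (T ∩ Ξ) (9 * N) := by
    by_contra hbad
    obtain ⟨K, hKT, hKi, hKb⟩ := halving_junk Z (q := 2 * N) Finset.inter_subset_right hbad
    apply hno K (hKT.trans Finset.inter_subset_left) hKi
    intro h
    exact hKb (h.mono (le_refl _) (Finset.Subset.refl _) (by omega))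
  intro P F hP hF
  obtain ⟨P0, R0, hP0, hR0, hd0, hP0c, hR0c⟩ := split_palette (P := P) (p := 9 * N)
    (q := 4 * N + 3 * k) (by omega)
  obtain ⟨PA, R1, hPA, hR1, hd1, hPAc, hR1c⟩ := split_palette (P := R0) (p := k + N)
    (q := 3 * N + 2 * k) (by omega)
  obtain ⟨PB, R2, hPB, hR2, hd2, hPBc, hR2c⟩ := split_palette (P := R1) (p := N)
    (q := 2 * N + 2 * k) (by omega)
  obtain ⟨Q0, Q1, hQ0, hQ1, hd3, hQ0c, hQ1c⟩ := split_palette (P := R2) (p := k + N)
    (q := k + N) (by omega)
  obtain ⟨c0, hc0, hc0A⟩ := hcol P0 (fun _ => ∅) (by omega) (by simp)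
  have hst : St a Z X Ξ N k PA PB Q0 Q1 Ξ Ξ ∅ ∅ ∅ ∅ (fun _ => 0) := by
    have h0 : ∀ i, Acyc a ((∅ : Finset V).filter (fun v => (fun _ : V => 0) v = i)) := by
      intro i S hS hne
      obtain ⟨s, hs⟩ := hne
      exact absurd (Finset.mem_filter.1 (hS hs)).1 (Finset.notMem_empty s)
    exact
      { hΞE := Finset.Subset.refl _
        hEY := Finset.Subset.refl _
        hYX := hΞ
        nodeY := fun v hv hv' => absurd hv hv'
        nodeE := fun v hv hv' => absurd hv hv'
        cover := fun v hv hv' => absurd hv hv'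
        hA := fun v hv => absurd hv (Finset.notMem_empty v)
        hB := fun v hv => absurd hv (Finset.notMem_empty v)
        hL := fun v hv => absurd hv (Finset.notMem_empty v)
        hM := fun v hv => absurd hv (Finset.notMem_empty v)
        aA := h0
        aB := h0
        aL := h0
        aM := h0
        hex := Or.inl rfl }
  obtain ⟨E, A, B, L, M, c, hfin⟩ := run hirr hN hd hΞT hB hk (PA := PA) (PB := PB)
    (by omega) (by omega) _ Q0 Q1 Ξ Ξ ∅ ∅ ∅ ∅ (fun _ => 0) rfl (by omega) (by omega) hst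
  -- forget the names of the two palettes of the layers
  obtain ⟨QL, QM, hQL, hQM, hdQ, hfin⟩ : ∃ QL QM : Finset ℕ, QL ⊆ R2 ∧ QM ⊆ R2 ∧
      Disjoint QL QM ∧ St a Z X Ξ N k PA PB QL QM X E A B L M c := by
    rcases hfin with h | h
    · exact ⟨Q0, Q1, hQ0, hQ1, hd3, h⟩
    · exact ⟨Q1, Q0, hQ1, hQ0, hd3.symm, h⟩
  set d : V → ℕ := fun v => if v ∈ Ξ then c0 v else c v with hdd
  have e1 : ∀ v ∈ Ξ, d v = c0 v := fun v hv => if_pos hv
  have e2 : ∀ v, v ∉ Ξ → d v = c v := fun v hv => if_neg hv
  have hA : ∀ v ∈ A, d v ∈ PA := fun v hv => by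
    rw [e2 v (hfin.hA v hv).2.1]
    exact (hfin.hA v hv).2.2
  have hB' : ∀ v ∈ B, d v ∈ PB := fun v hv => by
    rw [e2 v (hfin.hB v hv).2.1]
    exact (hfin.hB v hv).2.2
  have hL : ∀ v ∈ L, d v ∈ QL := fun v hv => by
    rw [e2 v (hfin.hL v hv).2.1]
    exact (hfin.hL v hv).2.2
  have hM : ∀ v ∈ M, d v ∈ QM := fun v hv => by
    rw [e2 v (hfin.hM v hv).2.1]
    exact (hfin.hM v hv).2.2
  have h0 : ∀ v ∈ T ∩ Ξ, d v ∈ P0 := fun v hv => by
    rw [e1 v (Finset.mem_inter.1 hv).2]
    exact (hc0 v hv).1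
  have a0 : ∀ i, Acyc a ((T ∩ Ξ).filter (fun v => d v = i)) :=
    acyc_congr (fun v hv => e1 v (Finset.mem_inter.1 hv).2) hc0A
  have aA : ∀ i, Acyc a (A.filter (fun v => d v = i)) :=
    acyc_congr (fun v hv => e2 v (hfin.hA v hv).2.1) hfin.aA
  have aB : ∀ i, Acyc a (B.filter (fun v => d v = i)) :=
    acyc_congr (fun v hv => e2 v (hfin.hB v hv).2.1) hfin.aB
  have aL : ∀ i, Acyc a (L.filter (fun v => d v = i)) :=
    acyc_congr (fun v hv => e2 v (hfin.hL v hv).2.1) hfin.aL
  have aM : ∀ i, Acyc a (M.filter (fun v => d v = i)) :=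
    acyc_congr (fun v hv => e2 v (hfin.hM v hv).2.1) hfin.aM
  obtain ⟨u1, b1⟩ := acyc_union hL hM hdQ aL aM
  have s1 : QL ∪ QM ⊆ R2 := Finset.union_subset hQL hQM
  obtain ⟨u2, b2⟩ := acyc_union hB' u1 (hd2.mono_right s1) aB b1
  have s2 : PB ∪ (QL ∪ QM) ⊆ R1 := Finset.union_subset hPB (s1.trans hR2)
  obtain ⟨u3, b3⟩ := acyc_union hA u2 (hd1.mono_right s2) aA b2
  have s3 : PA ∪ (PB ∪ (QL ∪ QM)) ⊆ R0 := Finset.union_subset hPA (s2.trans hR1)
  obtain ⟨u4, b4⟩ := acyc_union h0 u3 (hd0.mono_right s3) a0 b3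
  have s4 : P0 ∪ (PA ∪ (PB ∪ (QL ∪ QM))) ⊆ P := Finset.union_subset hP0 (s3.trans hR0)
  have hcov : ∀ v ∈ T, v ∈ (T ∩ Ξ) ∪ (A ∪ (B ∪ (L ∪ M))) := by
    intro v hv
    by_cases hvΞ : v ∈ Ξ
    · exact Finset.mem_union_left _ (Finset.mem_inter.2 ⟨hv, hvΞ⟩)
    · apply Finset.mem_union_right
      rcases hfin.cover v (hTX hv) hvΞ with h | h | h | h
      · exact Finset.mem_union_left _ h
      · exact Finset.mem_union_right _ (Finset.mem_union_left _ h)
      · exact Finset.mem_union_right _ (Finset.mem_union_right _ (Finset.mem_union_left _ h))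
      · exact Finset.mem_union_right _ (Finset.mem_union_right _ (Finset.mem_union_right _ h))
  refine ⟨d, fun v hv => ⟨s4 (u4 v (hcov v hv)), ?_⟩, fun i S hS hne => b4 i S (fun v hv => ?_)
    hne⟩
  · have h1 := hF v hv
    have h2 : F v = ∅ := Finset.card_eq_zero.1 (Nat.le_zero.1 h1)
    rw [h2]
    exact Finset.notMem_empty _
  · have h1 := Finset.mem_filter.1 (hS hv)
    exact Finset.mem_filter.2 ⟨hcov v h1.1, h1.2⟩

end Pool.Agent.OSX82
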