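import Pool.Agent.OSX82.Final
import Pool.Agent.OrdThm.OSJ

/-! The core theorem from the plain one-sided theorem, which is a hypothesis here. -/

open Classical

namespace Pool.Agent.OSX82

open Pool.Agent.Mader Pool.Agent.MDP
open Pool.Agent.OrdThm (LCol)

universe u

/-- The plain one-sided theorem. -/
def PlainH (V : Type u) : Prop :=
  ∀ (a : V → V → Prop) (T X Z : Finset V) (N k : ℕ), (∀ v, ¬ a v v) → 0 < N → T ⊆ X →
    Disjoint X Z → (∀ v ∈ T, OrdThm.Att a Z N X v) →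
    (∀ W ⊆ T, (∀ w ∈ W, OrdThm.Att a Z N (insert w (X \ W)) w) → LCol a 0 W k) →
    LCol a 0 T (13 * N + 3 * k)

variable {V : Type u}

/-- The core theorem for ordinary colourings, at linear cost. -/
theorem core_of_plain (hP : PlainH V) {a : V → V → Prop} (hirr : ∀ v, ¬ a v v) {N : ℕ}
    (hN : 1 ≤ N) {S : Finset V} {k : ℕ} (h : ¬ Col a S (9 * k + 110 * N)) :
    ∃ Y ⊆ S, ¬ Col a Y k ∧ Core a (S \ Y) Y N := by
  have e0 : 9 * k + 110 * N = (9 * k + 106 * N) + 2 * (2 * N) := by ring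
  rw [e0] at h
  obtain ⟨W, hWS, hW, hlink⟩ := thmA (by omega) h
  have hWc : 2 * N ≤ W.card := by
    by_contra hlt
    exact hW ((Col.card hirr W).mono (Finset.Subset.refl _) (by omega))
  obtain ⟨Z, hZW, hZ⟩ := Finset.exists_subset_card_eq hWc
  have hZS : Z ⊆ S := hZW.trans hWS
  have hXZ : Disjoint (S \ Z) Z := Finset.sdiff_disjoint
  have hTX : W \ Z ⊆ S \ Z := Finset.sdiff_subset_sdiff hWS (Finset.Subset.refl _)
  have hTc : ¬ Col a (W \ Z) (13 * (2 * N) + 3 * (13 * (2 * N) + 3 * k)) := by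
    intro hc
    apply hW
    refine (Col.union hc (Col.card hirr Z)).mono ?_ ?_
    · intro v hv
      by_cases hvZ : v ∈ Z
      · exact Finset.mem_union_right _ hvZ
      · exact Finset.mem_union_left _ (Finset.mem_sdiff.2 ⟨hv, hvZ⟩)
    · rw [hZ]
      omega
  obtain ⟨W0, hW0, hatt0, hcol0⟩ : ∃ W0 ⊆ W \ Z,
      (∀ w ∈ W0, OrdThm.Att a Z (2 * N) (insert w ((S \ Z) \ W0)) w) ∧
      ¬ LCol a 0 W0 (13 * (2 * N) + 3 * k) := by
    by_contra hcon
    push Not at hcon
    have h1 := hP a (W \ Z) (S \ Z) Z (2 * N) (13 * (2 * N) + 3 * k) hirr (by omega) hTX hXZ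
      (fun v hv => att_of_walk (by omega) hWS hZW hZ.ge hlink (Finset.mem_sdiff.1 hv).1)
      (fun W' hW' hatt => hcon W' hW' hatt)
    exact hTc (col_of_lcol h1)
  obtain ⟨W1, hW1, hatt1, hcol1⟩ : ∃ W1 ⊆ W0,
      (∀ w ∈ W1, OrdThm.Att (rev a) Z (2 * N) (insert w ((S \ Z) \ W1)) w) ∧
      ¬ LCol (rev a) 0 W1 k := by
    by_contra hcon
    push Not at hcon
    have h1 := hP (rev a) W0 (S \ Z) Z (2 * N) k hirr (by omega) (hW0.trans hTX) hXZ
      (fun v hv => att_of_walk_rev (by omega) hWS hZW hZ.ge hlink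
        (Finset.mem_sdiff.1 (hW0 hv)).1)
      (fun W' hW' hatt => hcon W' hW' hatt)
    exact hcol0 (lcol_rev h1)
  have hWX : W1 ⊆ S \ Z := hW1.trans (hW0.trans hTX)
  refine ⟨W1, hWX.trans Finset.sdiff_subset, ?_, ?_⟩
  · intro hc
    apply hcol1
    have h1 := lcol_of_col 0 hc
    rw [Nat.zero_add, Nat.mul_one] at h1
    exact lcol_rev h1
  · refine core_of_att (hWX.trans Finset.sdiff_subset) hZS
      (Finset.disjoint_left.2 fun v hv => (Finset.mem_sdiff.1 (hWX hv)).2) hZ ?_ hatt1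
    intro w hw
    refine (hatt0 w (hW1 hw)).mono ?_ (Finset.mem_insert_self _ _) ?_
    · exact Finset.insert_subset_insert _ (Finset.sdiff_subset_sdiff (Finset.Subset.refl _) hW1)
    · rw [Finset.disjoint_left]
      intro v hv
      rcases Finset.mem_insert.1 hv with h1 | h1
      · rw [h1]
        exact (Finset.mem_sdiff.1 (hWX hw)).2
      · exact (Finset.mem_sdiff.1 (Finset.mem_sdiff.1 h1).1).2

/-- Main theorem: `c * (n + m)` colours. -/
theorem linear_of_plain (hP : ∀ V : Type u, PlainH V) : ∃ c : ℕ, 0 < c ∧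
    ∀ n : ℕ, 0 < n → ∀ F : Digraph (Fin n),
    (∀ i, ¬ F.Adj i i) → ∀ (V : Type u) [Fintype V] (D : Digraph V), (∀ v, ¬ D.Adj v v) →
      (¬ ∃ col : V → Fin (c * (n + Nat.card {e : Fin n × Fin n // F.Adj e.1 e.2}) - 1),
        ∀ v, ¬ Relation.TransGen (fun x y => D.Adj x y ∧ col x = col y) v v) →
      ContainsSubdivision F D := by
  refine ⟨6000, by norm_num, ?_⟩
  intro n hn F hF V _ D hD hcol
  have h0 := not_col_of_cycles D.Adj _ hcol
  obtain ⟨N, hN⟩ : ∃ N, N = Nat.card {e : Fin n × Fin n // F.Adj e.1 e.2} := ⟨_, rfl⟩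
  rw [← hN] at h0
  have hcard : n ≤ Fintype.card V := by
    by_contra hlt
    push Not at hlt
    apply h0
    refine (Col.card hD Finset.univ).mono (Finset.Subset.refl _) ?_
    rw [Finset.card_univ]
    omega
  refine subdivision_of_core hn hF hD hcard hN fun h1 => ?_
  obtain ⟨Y, -, hY, hYc⟩ := core_of_plain (hP V) (a := D.Adj) hD h1 (S := Finset.univ)
    (k := 578 * (n + N)) (fun hc => h0 (hc.mono (Finset.Subset.refl _) (by omega)))
  exact ⟨Y, hY, hYc⟩

end Pool.Agent.OSX82
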